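import Pool.Agent.Y425.PC.Gd
import Pool.Agent.Y425.PC.E0
import Pool.Agent.Y425.PC.E1
import Pool.Agent.Y425.PC.E2
import Pool.Agent.Y425.PC.E3
import Pool.Agent.Y425.PC.E4
import Pool.Agent.Y425.PC.E5
import Pool.Agent.Y425.PC.E6
import Pool.Agent.Y425.PC.E7
import Pool.Agent.Y425.PC.E8
import Pool.Agent.Y425.PC.E9
import Pool.Agent.Y425.PC.E10
import Pool.Agent.Y425.PC.E11
import Pool.Agent.Y425.PC.E12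
import Pool.Agent.Y425.PC.E13
import Pool.Agent.Y425.PC.E14
import Pool.Agent.Y425.PC.E15
import Pool.Agent.Y425.PC.E16
import Pool.Agent.Y425.PC.E17
import Pool.Agent.Y425.PC.E18
import Pool.Agent.Y425.PC.E19
import Pool.Agent.Y425.PC.E20
import Pool.Agent.Y425.PC.E21
import Pool.Agent.Y425.PC.E22
import Pool.Agent.Y425.PC.E23
import Pool.Agent.Y425.PC.E24
import Pool.Agent.Y425.PC.E25
import Pool.Agent.Y425.PC.E26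
import Pool.Agent.Y425.PC.E27
import Pool.Agent.Y425.PC.E28
import Pool.Agent.Y425.PC.E29
import Pool.Agent.Y425.PC.E30
import Pool.Agent.Y425.PC.E31
import Pool.Agent.Y425.PC.E32
import Pool.Agent.Y425.PC.E33
import Pool.Agent.Y425.PC.E34
import Pool.Agent.Y425.PC.E35
import Pool.Agent.Y425.PC.E36
import Pool.Agent.Y425.PC.E37

set_option autoImplicit false

/-! All stored types pass the checker. -/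

namespace Pool.Agent.Y425.PC

open Pool.Agent.TH222.RG (BT Ent)

theorem okB0 : ∀ Q ∈ B0, Gd Q :=
  (gc (g0 ok0 rfl rfl) (gc (g0 ok1 rfl rfl) (gc (g0 ok2 rfl rfl) (gc (g0 ok3 rfl rfl) 
  (gc (g0 ok4 rfl rfl) (gc (g0 ok5 rfl rfl) (gc (g0 ok6 rfl rfl) (gc (g0 ok7 rfl rfl) 
  (gc (g0 ok8 rfl rfl) (gc (g0 ok9 rfl rfl) (gc (g0 ok10 rfl rfl) (gc (g0 ok11 rfl rfl) 
  (gc (g5 ok12 ov12 rfl) (gc (g5 ok13 ov13 rfl) (gc (g5 ok14 ov14 rfl) (gc (g5 ok15 ov15 rfl) 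
  gn))))))))))))))))

theorem okB1 : ∀ Q ∈ B1, Gd Q :=
  (gc (g5 ok16 ov16 rfl) (gc (g5 ok17 ov17 rfl) (gc (g5 ok18 ov18 rfl) (gc (g5 ok19 ov19 rfl) 
  (gc (g5 ok20 ov20 rfl) (gc (g5 ok21 ov21 rfl) (gc (g5 ok22 ov22 rfl) (gc (g5 ok23 ov23 rfl) 
  (gc (g5 ok24 ov24 rfl) (gc (g5 ok25 ov25 rfl) (gc (g5 ok26 ov26 rfl) (gc (g5 ok27 ov27 rfl) 
  (gc (g5 ok28 ov28 rfl) (gc (g5 ok29 ov29 rfl) (gc (g5 ok30 ov30 rfl) (gc (g5 ok31 ov31 rfl) 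
  gn))))))))))))))))

theorem okB2 : ∀ Q ∈ B2, Gd Q :=
  (gc (g5 ok32 ov32 rfl) (gc (g5 ok33 ov33 rfl) (gc (g5 ok34 ov34 rfl) (gc (g5 ok35 ov35 rfl) 
  (gc (g5 ok36 ov36 rfl) (gc (g5 ok37 ov37 rfl) (gc (g5 ok38 ov38 rfl) (gc (g5 ok39 ov39 rfl) 
  (gc (g5 ok40 ov40 rfl) (gc (g5 ok41 ov41 rfl) (gc (g5 ok42 ov42 rfl) (gc (g5 ok43 ov43 rfl) 
  (gc (g5 ok44 ov44 rfl) (gc (g5 ok45 ov45 rfl) (gc (g5 ok46 ov46 rfl) (gc (g5 ok47 ov47 rfl) 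
  gn))))))))))))))))

theorem okB3 : ∀ Q ∈ B3, Gd Q :=
  (gc (g5 ok48 ov48 rfl) (gc (g5 ok49 ov49 rfl) (gc (g5 ok50 ov50 rfl) (gc (g5 ok51 ov51 rfl) 
  (gc (g5 ok52 ov52 rfl) (gc (g5 ok53 ov53 rfl) (gc (g5 ok54 ov54 rfl) (gc (g5 ok55 ov55 rfl) 
  (gc (g5 ok56 ov56 rfl) (gc (g5 ok57 ov57 rfl) (gc (g5 ok58 ov58 rfl) (gc (g5 ok59 ov59 rfl) 
  (gc (g5 ok60 ov60 rfl) (gc (g5 ok61 ov61 rfl) (gc (g5 ok62 ov62 rfl) (gc (g5 ok63 ov63 rfl) 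
  gn))))))))))))))))

theorem okB4 : ∀ Q ∈ B4, Gd Q :=
  (gc (g5 ok64 ov64 rfl) (gc (g5 ok65 ov65 rfl) (gc (g5 ok66 ov66 rfl) (gc (g5 ok67 ov67 rfl) 
  (gc (g5 ok68 ov68 rfl) (gc (g5 ok69 ov69 rfl) (gc (g5 ok70 ov70 rfl) (gc (g5 ok71 ov71 rfl) 
  (gc (g5 ok72 ov72 rfl) (gc (g5 ok73 ov73 rfl) (gc (g5 ok74 ov74 rfl) (gc (g5 ok75 ov75 rfl) 
  (gc (g5 ok76 ov76 rfl) (gc (g5 ok77 ov77 rfl) (gc (g5 ok78 ov78 rfl) (gc (g5 ok79 ov79 rfl) 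
  gn))))))))))))))))

theorem okB5 : ∀ Q ∈ B5, Gd Q :=
  (gc (g5 ok80 ov80 rfl) (gc (g5 ok81 ov81 rfl) (gc (g5 ok82 ov82 rfl) (gc (g5 ok83 ov83 rfl) 
  (gc (g5 ok84 ov84 rfl) (gc (g5 ok85 ov85 rfl) (gc (g5 ok86 ov86 rfl) (gc (g5 ok87 ov87 rfl) 
  (gc (g5 ok88 ov88 rfl) (gc (g5 ok89 ov89 rfl) (gc (g5 ok90 ov90 rfl) (gc (g5 ok91 ov91 rfl) 
  (gc (g5 ok92 ov92 rfl) (gc (g5 ok93 ov93 rfl) (gc (g5 ok94 ov94 rfl) (gc (g5 ok95 ov95 rfl) 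
  gn))))))))))))))))

theorem okB6 : ∀ Q ∈ B6, Gd Q :=
  (gc (g5 ok96 ov96 rfl) (gc (g5 ok97 ov97 rfl) (gc (g5 ok98 ov98 rfl) (gc (g5 ok99 ov99 rfl) 
  (gc (g5 ok100 ov100 rfl) (gc (g5 ok101 ov101 rfl) (gc (g5 ok102 ov102 rfl) (gc (g5 ok103 ov103 rfl) 
  (gc (g5 ok104 ov104 rfl) (gc (g5 ok105 ov105 rfl) (gc (g5 ok106 ov106 rfl) (gc (g5 ok107 ov107 rfl) 
  (gc (g5 ok108 ov108 rfl) (gc (g5 ok109 ov109 rfl) (gc (g5 ok110 ov110 rfl) (gc (g5 ok111 ov111 rfl) 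
  gn))))))))))))))))

theorem okB7 : ∀ Q ∈ B7, Gd Q :=
  (gc (g5 ok112 ov112 rfl) (gc (g5 ok113 ov113 rfl) (gc (g5 ok114 ov114 rfl) (gc (g5 ok115 ov115 rfl) 
  (gc (g5 ok116 ov116 rfl) (gc (g5 ok117 ov117 rfl) (gc (g5 ok118 ov118 rfl) (gc (g5 ok119 ov119 rfl) 
  (gc (g5 ok120 ov120 rfl) (gc (g5 ok121 ov121 rfl) (gc (g5 ok122 ov122 rfl) (gc (g5 ok123 ov123 rfl) 
  (gc (g5 ok124 ov124 rfl) (gc (g5 ok125 ov125 rfl) (gc (g5 ok126 ov126 rfl) (gc (g5 ok127 ov127 rfl) 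
  gn))))))))))))))))

theorem okB8 : ∀ Q ∈ B8, Gd Q :=
  (gc (g5 ok128 ov128 rfl) (gc (g5 ok129 ov129 rfl) (gc (g5 ok130 ov130 rfl) (gc (g5 ok131 ov131 rfl) 
  (gc (g5 ok132 ov132 rfl) (gc (g5 ok133 ov133 rfl) (gc (g5 ok134 ov134 rfl) (gc (g5 ok135 ov135 rfl) 
  (gc (g5 ok136 ov136 rfl) (gc (g5 ok137 ov137 rfl) (gc (g5 ok138 ov138 rfl) (gc (g5 ok139 ov139 rfl) 
  (gc (g5 ok140 ov140 rfl) (gc (g5 ok141 ov141 rfl) (gc (g5 ok142 ov142 rfl) (gc (g5 ok143 ov143 rfl) 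
  gn))))))))))))))))

theorem okB9 : ∀ Q ∈ B9, Gd Q :=
  (gc (g5 ok144 ov144 rfl) (gc (g5 ok145 ov145 rfl) (gc (g5 ok146 ov146 rfl) (gc (g5 ok147 ov147 rfl) 
  (gc (g5 ok148 ov148 rfl) (gc (g5 ok149 ov149 rfl) (gc (g5 ok150 ov150 rfl) (gc (g5 ok151 ov151 rfl) 
  (gc (g5 ok152 ov152 rfl) (gc (g5 ok153 ov153 rfl) (gc (g5 ok154 ov154 rfl) (gc (g5 ok155 ov155 rfl) 
  (gc (g5 ok156 ov156 rfl) (gc (g5 ok157 ov157 rfl) (gc (g5 ok158 ov158 rfl) (gc (g5 ok159 ov159 rfl) 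
  gn))))))))))))))))

theorem okB10 : ∀ Q ∈ B10, Gd Q :=
  (gc (g5 ok160 ov160 rfl) (gc (g5 ok161 ov161 rfl) (gc (g5 ok162 ov162 rfl) (gc (g5 ok163 ov163 rfl) 
  (gc (g5 ok164 ov164 rfl) (gc (g5 ok165 ov165 rfl) (gc (g5 ok166 ov166 rfl) (gc (g5 ok167 ov167 rfl) 
  (gc (g5 ok168 ov168 rfl) (gc (g5 ok169 ov169 rfl) (gc (g5 ok170 ov170 rfl) (gc (g5 ok171 ov171 rfl) 
  (gc (g5 ok172 ov172 rfl) (gc (g5 ok173 ov173 rfl) (gc (g5 ok174 ov174 rfl) (gc (g5 ok175 ov175 rfl) 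
  gn))))))))))))))))

theorem okB11 : ∀ Q ∈ B11, Gd Q :=
  (gc (g5 ok176 ov176 rfl) (gc (g5 ok177 ov177 rfl) (gc (g5 ok178 ov178 rfl) (gc (g5 ok179 ov179 rfl) 
  (gc (g5 ok180 ov180 rfl) (gc (g5 ok181 ov181 rfl) (gc (g5 ok182 ov182 rfl) (gc (g5 ok183 ov183 rfl) 
  (gc (g5 ok184 ov184 rfl) (gc (g5 ok185 ov185 rfl) (gc (g5 ok186 ov186 rfl) (gc (g5 ok187 ov187 rfl) 
  (gc (g5 ok188 ov188 rfl) (gc (g5 ok189 ov189 rfl) (gc (g5 ok190 ov190 rfl) (gc (g5 ok191 ov191 rfl) 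
  gn))))))))))))))))

theorem okB12 : ∀ Q ∈ B12, Gd Q :=
  (gc (g5 ok192 ov192 rfl) (gc (g5 ok193 ov193 rfl) (gc (g5 ok194 ov194 rfl) (gc (g5 ok195 ov195 rfl) 
  (gc (g5 ok196 ov196 rfl) (gc (g5 ok197 ov197 rfl) (gc (g5 ok198 ov198 rfl) (gc (g5 ok199 ov199 rfl) 
  (gc (g5 ok200 ov200 rfl) (gc (g5 ok201 ov201 rfl) (gc (g5 ok202 ov202 rfl) (gc (g5 ok203 ov203 rfl) 
  (gc (g5 ok204 ov204 rfl) (gc (g5 ok205 ov205 rfl) (gc (g5 ok206 ov206 rfl) (gc (g5 ok207 ov207 rfl) 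
  gn))))))))))))))))

theorem okB13 : ∀ Q ∈ B13, Gd Q :=
  (gc (g5 ok208 ov208 rfl) (gc (g5 ok209 ov209 rfl) (gc (g5 ok210 ov210 rfl) (gc (g5 ok211 ov211 rfl) 
  (gc (g5 ok212 ov212 rfl) (gc (g5 ok213 ov213 rfl) (gc (g5 ok214 ov214 rfl) (gc (g5 ok215 ov215 rfl) 
  (gc (g5 ok216 ov216 rfl) (gc (g5 ok217 ov217 rfl) (gc (g5 ok218 ov218 rfl) (gc (g5 ok219 ov219 rfl) 
  (gc (g5 ok220 ov220 rfl) (gc (g5 ok221 ov221 rfl) (gc (g5 ok222 ov222 rfl) (gc (g5 ok223 ov223 rfl) 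
  gn))))))))))))))))

theorem okB14 : ∀ Q ∈ B14, Gd Q :=
  (gc (g5 ok224 ov224 rfl) (gc (g5 ok225 ov225 rfl) (gc (g5 ok226 ov226 rfl) (gc (g5 ok227 ov227 rfl) 
  (gc (g5 ok228 ov228 rfl) (gc (g5 ok229 ov229 rfl) (gc (g5 ok230 ov230 rfl) (gc (g5 ok231 ov231 rfl) 
  (gc (g5 ok232 ov232 rfl) (gc (g5 ok233 ov233 rfl) (gc (g5 ok234 ov234 rfl) (gc (g5 ok235 ov235 rfl) 
  (gc (g5 ok236 ov236 rfl) (gc (g5 ok237 ov237 rfl) (gc (g5 ok238 ov238 rfl) (gc (g5 ok239 ov239 rfl) 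
  gn))))))))))))))))

theorem okB15 : ∀ Q ∈ B15, Gd Q :=
  (gc (g5 ok240 ov240 rfl) (gc (g5 ok241 ov241 rfl) (gc (g5 ok242 ov242 rfl) (gc (g5 ok243 ov243 rfl) 
  (gc (g5 ok244 ov244 rfl) (gc (g5 ok245 ov245 rfl) (gc (g5 ok246 ov246 rfl) (gc (g5 ok247 ov247 rfl) 
  (gc (g5 ok248 ov248 rfl) (gc (g5 ok249 ov249 rfl) (gc (g5 ok250 ov250 rfl) (gc (g5 ok251 ov251 rfl) 
  (gc (g5 ok252 ov252 rfl) (gc (g5 ok253 ov253 rfl) (gc (g5 ok254 ov254 rfl) (gc (g5 ok255 ov255 rfl) 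
  gn))))))))))))))))

theorem okB16 : ∀ Q ∈ B16, Gd Q :=
  (gc (g5 ok256 ov256 rfl) (gc (g5 ok257 ov257 rfl) (gc (g5 ok258 ov258 rfl) (gc (g5 ok259 ov259 rfl) 
  (gc (g5 ok260 ov260 rfl) (gc (g5 ok261 ov261 rfl) (gc (g5 ok262 ov262 rfl) (gc (g5 ok263 ov263 rfl) 
  (gc (g5 ok264 ov264 rfl) (gc (g5 ok265 ov265 rfl) (gc (g5 ok266 ov266 rfl) (gc (g5 ok267 ov267 rfl) 
  (gc (g5 ok268 ov268 rfl) (gc (g5 ok269 ov269 rfl) (gc (g5 ok270 ov270 rfl) (gc (g5 ok271 ov271 rfl) 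
  gn))))))))))))))))

theorem okB17 : ∀ Q ∈ B17, Gd Q :=
  (gc (g5 ok272 ov272 rfl) (gc (g5 ok273 ov273 rfl) (gc (g5 ok274 ov274 rfl) (gc (g5 ok275 ov275 rfl) 
  (gc (g5 ok276 ov276 rfl) (gc (g5 ok277 ov277 rfl) (gc (g5 ok278 ov278 rfl) (gc (g5 ok279 ov279 rfl) 
  (gc (g5 ok280 ov280 rfl) (gc (g5 ok281 ov281 rfl) (gc (g5 ok282 ov282 rfl) (gc (g5 ok283 ov283 rfl) 
  (gc (g5 ok284 ov284 rfl) (gc (g5 ok285 ov285 rfl) (gc (g5 ok286 ov286 rfl) (gc (g5 ok287 ov287 rfl) 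
  gn))))))))))))))))

theorem okB18 : ∀ Q ∈ B18, Gd Q :=
  (gc (g5 ok288 ov288 rfl) (gc (g5 ok289 ov289 rfl) (gc (g5 ok290 ov290 rfl) (gc (g5 ok291 ov291 rfl) 
  (gc (g5 ok292 ov292 rfl) (gc (g5 ok293 ov293 rfl) (gc (g5 ok294 ov294 rfl) (gc (g5 ok295 ov295 rfl) 
  (gc (g5 ok296 ov296 rfl) (gc (g5 ok297 ov297 rfl) (gc (g5 ok298 ov298 rfl) (gc (g5 ok299 ov299 rfl) 
  (gc (g5 ok300 ov300 rfl) (gc (g5 ok301 ov301 rfl) (gc (g5 ok302 ov302 rfl) (gc (g5 ok303 ov303 rfl) 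
  gn))))))))))))))))

theorem okB19 : ∀ Q ∈ B19, Gd Q :=
  (gc (g5 ok304 ov304 rfl) (gc (g5 ok305 ov305 rfl) (gc (g5 ok306 ov306 rfl) (gc (g5 ok307 ov307 rfl) 
  (gc (g5 ok308 ov308 rfl) (gc (g5 ok309 ov309 rfl) (gc (g5 ok310 ov310 rfl) (gc (g5 ok311 ov311 rfl) 
  (gc (g5 ok312 ov312 rfl) (gc (g5 ok313 ov313 rfl) (gc (g5 ok314 ov314 rfl) (gc (g5 ok315 ov315 rfl) 
  (gc (g5 ok316 ov316 rfl) (gc (g5 ok317 ov317 rfl) (gc (g5 ok318 ov318 rfl) (gc (g5 ok319 ov319 rfl) 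
  gn))))))))))))))))

theorem okB20 : ∀ Q ∈ B20, Gd Q :=
  (gc (g5 ok320 ov320 rfl) (gc (g5 ok321 ov321 rfl) (gc (g5 ok322 ov322 rfl) (gc (g5 ok323 ov323 rfl) 
  (gc (g5 ok324 ov324 rfl) (gc (g5 ok325 ov325 rfl) (gc (g5 ok326 ov326 rfl) (gc (g5 ok327 ov327 rfl) 
  (gc (g5 ok328 ov328 rfl) (gc (g5 ok329 ov329 rfl) (gc (g5 ok330 ov330 rfl) (gc (g5 ok331 ov331 rfl) 
  (gc (g5 ok332 ov332 rfl) (gc (g5 ok333 ov333 rfl) (gc (g5 ok334 ov334 rfl) (gc (g5 ok335 ov335 rfl) 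
  gn))))))))))))))))

theorem okB21 : ∀ Q ∈ B21, Gd Q :=
  (gc (g5 ok336 ov336 rfl) (gc (g5 ok337 ov337 rfl) (gc (g5 ok338 ov338 rfl) (gc (g5 ok339 ov339 rfl) 
  (gc (g5 ok340 ov340 rfl) (gc (g5 ok341 ov341 rfl) (gc (g5 ok342 ov342 rfl) (gc (g5 ok343 ov343 rfl) 
  (gc (g5 ok344 ov344 rfl) (gc (g5 ok345 ov345 rfl) (gc (g5 ok346 ov346 rfl) (gc (g5 ok347 ov347 rfl) 
  (gc (g5 ok348 ov348 rfl) (gc (g5 ok349 ov349 rfl) (gc (g5 ok350 ov350 rfl) (gc (g5 ok351 ov351 rfl) 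
  gn))))))))))))))))

theorem okB22 : ∀ Q ∈ B22, Gd Q :=
  (gc (g5 ok352 ov352 rfl) (gc (g5 ok353 ov353 rfl) (gc (g5 ok354 ov354 rfl) (gc (g5 ok355 ov355 rfl) 
  (gc (g5 ok356 ov356 rfl) (gc (g5 ok357 ov357 rfl) (gc (g5 ok358 ov358 rfl) (gc (g5 ok359 ov359 rfl) 
  (gc (g5 ok360 ov360 rfl) (gc (g5 ok361 ov361 rfl) (gc (g5 ok362 ov362 rfl) (gc (g5 ok363 ov363 rfl) 
  (gc (g5 ok364 ov364 rfl) (gc (g5 ok365 ov365 rfl) (gc (g5 ok366 ov366 rfl) (gc (g5 ok367 ov367 rfl) 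
  gn))))))))))))))))

theorem okB23 : ∀ Q ∈ B23, Gd Q :=
  (gc (g5 ok368 ov368 rfl) (gc (g5 ok369 ov369 rfl) (gc (g5 ok370 ov370 rfl) (gc (g5 ok371 ov371 rfl) 
  (gc (g5 ok372 ov372 rfl) (gc (g5 ok373 ov373 rfl) (gc (g5 ok374 ov374 rfl) (gc (g5 ok375 ov375 rfl) 
  (gc (g5 ok376 ov376 rfl) (gc (g5 ok377 ov377 rfl) (gc (g5 ok378 ov378 rfl) (gc (g5 ok379 ov379 rfl) 
  (gc (g5 ok380 ov380 rfl) (gc (g5 ok381 ov381 rfl) (gc (g5 ok382 ov382 rfl) (gc (g5 ok383 ov383 rfl) 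
  gn))))))))))))))))

theorem okB24 : ∀ Q ∈ B24, Gd Q :=
  (gc (g5 ok384 ov384 rfl) (gc (g5 ok385 ov385 rfl) (gc (g5 ok386 ov386 rfl) (gc (g5 ok387 ov387 rfl) 
  (gc (g5 ok388 ov388 rfl) (gc (g5 ok389 ov389 rfl) (gc (g5 ok390 ov390 rfl) (gc (g5 ok391 ov391 rfl) 
  (gc (g5 ok392 ov392 rfl) (gc (g5 ok393 ov393 rfl) (gc (g5 ok394 ov394 rfl) (gc (g5 ok395 ov395 rfl) 
  (gc (g5 ok396 ov396 rfl) (gc (g5 ok397 ov397 rfl) (gc (g5 ok398 ov398 rfl) (gc (g5 ok399 ov399 rfl) 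
  gn))))))))))))))))

theorem okB25 : ∀ Q ∈ B25, Gd Q :=
  (gc (g5 ok400 ov400 rfl) (gc (g5 ok401 ov401 rfl) (gc (g5 ok402 ov402 rfl) (gc (g5 ok403 ov403 rfl) 
  (gc (g5 ok404 ov404 rfl) (gc (g5 ok405 ov405 rfl) (gc (g5 ok406 ov406 rfl) (gc (g5 ok407 ov407 rfl) 
  (gc (g5 ok408 ov408 rfl) (gc (g5 ok409 ov409 rfl) (gc (g5 ok410 ov410 rfl) (gc (g5 ok411 ov411 rfl) 
  (gc (g5 ok412 ov412 rfl) (gc (g5 ok413 ov413 rfl) (gc (g5 ok414 ov414 rfl) (gc (g5 ok415 ov415 rfl) 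
  gn))))))))))))))))

theorem okB26 : ∀ Q ∈ B26, Gd Q :=
  (gc (g5 ok416 ov416 rfl) (gc (g5 ok417 ov417 rfl) (gc (g5 ok418 ov418 rfl) (gc (g5 ok419 ov419 rfl) 
  (gc (g5 ok420 ov420 rfl) (gc (g5 ok421 ov421 rfl) (gc (g5 ok422 ov422 rfl) (gc (g5 ok423 ov423 rfl) 
  (gc (g5 ok424 ov424 rfl) (gc (g5 ok425 ov425 rfl) (gc (g5 ok426 ov426 rfl) (gc (g5 ok427 ov427 rfl) 
  (gc (g5 ok428 ov428 rfl) (gc (g5 ok429 ov429 rfl) (gc (g5 ok430 ov430 rfl) (gc (g5 ok431 ov431 rfl) 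
  gn))))))))))))))))

theorem okB27 : ∀ Q ∈ B27, Gd Q :=
  (gc (g5 ok432 ov432 rfl) (gc (g5 ok433 ov433 rfl) (gc (g5 ok434 ov434 rfl) (gc (g5 ok435 ov435 rfl) 
  (gc (g5 ok436 ov436 rfl) (gc (g5 ok437 ov437 rfl) (gc (g5 ok438 ov438 rfl) (gc (g5 ok439 ov439 rfl) 
  (gc (g5 ok440 ov440 rfl) (gc (g5 ok441 ov441 rfl) (gc (g5 ok442 ov442 rfl) (gc (g5 ok443 ov443 rfl) 
  (gc (g5 ok444 ov444 rfl) (gc (g5 ok445 ov445 rfl) (gc (g5 ok446 ov446 rfl) (gc (g5 ok447 ov447 rfl) 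
  gn))))))))))))))))

theorem okB28 : ∀ Q ∈ B28, Gd Q :=
  (gc (g5 ok448 ov448 rfl) (gc (g5 ok449 ov449 rfl) (gc (g5 ok450 ov450 rfl) (gc (g5 ok451 ov451 rfl) 
  (gc (g5 ok452 ov452 rfl) (gc (g5 ok453 ov453 rfl) (gc (g5 ok454 ov454 rfl) (gc (g5 ok455 ov455 rfl) 
  (gc (g5 ok456 ov456 rfl) (gc (g5 ok457 ov457 rfl) (gc (g5 ok458 ov458 rfl) (gc (g5 ok459 ov459 rfl) 
  (gc (g5 ok460 ov460 rfl) (gc (g5 ok461 ov461 rfl) (gc (g5 ok462 ov462 rfl) (gc (g5 ok463 ov463 rfl) 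
  gn))))))))))))))))

theorem okB29 : ∀ Q ∈ B29, Gd Q :=
  (gc (g5 ok464 ov464 rfl) (gc (g5 ok465 ov465 rfl) (gc (g5 ok466 ov466 rfl) (gc (g5 ok467 ov467 rfl) 
  (gc (g5 ok468 ov468 rfl) (gc (g5 ok469 ov469 rfl) (gc (g5 ok470 ov470 rfl) (gc (g5 ok471 ov471 rfl) 
  (gc (g5 ok472 ov472 rfl) (gc (g5 ok473 ov473 rfl) (gc (g5 ok474 ov474 rfl) (gc (g5 ok475 ov475 rfl) 
  (gc (g5 ok476 ov476 rfl) (gc (g5 ok477 ov477 rfl) (gc (g5 ok478 ov478 rfl) (gc (g5 ok479 ov479 rfl) 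
  gn))))))))))))))))

theorem okB30 : ∀ Q ∈ B30, Gd Q :=
  (gc (g5 ok480 ov480 rfl) (gc (g5 ok481 ov481 rfl) (gc (g5 ok482 ov482 rfl) (gc (g5 ok483 ov483 rfl) 
  (gc (g5 ok484 ov484 rfl) (gc (g5 ok485 ov485 rfl) (gc (g5 ok486 ov486 rfl) (gc (g5 ok487 ov487 rfl) 
  (gc (g5 ok488 ov488 rfl) (gc (g5 ok489 ov489 rfl) (gc (g5 ok490 ov490 rfl) (gc (g5 ok491 ov491 rfl) 
  (gc (g5 ok492 ov492 rfl) (gc (g5 ok493 ov493 rfl) (gc (g5 ok494 ov494 rfl) (gc (g5 ok495 ov495 rfl) 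
  gn))))))))))))))))

theorem okB31 : ∀ Q ∈ B31, Gd Q :=
  (gc (g5 ok496 ov496 rfl) (gc (g5 ok497 ov497 rfl) (gc (g5 ok498 ov498 rfl) (gc (g5 ok499 ov499 rfl) 
  (gc (g5 ok500 ov500 rfl) (gc (g5 ok501 ov501 rfl) (gc (g5 ok502 ov502 rfl) (gc (g5 ok503 ov503 rfl) 
  (gc (g5 ok504 ov504 rfl) (gc (g5 ok505 ov505 rfl) (gc (g5 ok506 ov506 rfl) (gc (g5 ok507 ov507 rfl) 
  (gc (g5 ok508 ov508 rfl) (gc (g5 ok509 ov509 rfl) (gc (g5 ok510 ov510 rfl) (gc (g5 ok511 ov511 rfl) 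
  gn))))))))))))))))

theorem okB32 : ∀ Q ∈ B32, Gd Q :=
  (gc (g5 ok512 ov512 rfl) (gc (g5 ok513 ov513 rfl) (gc (g5 ok514 ov514 rfl) (gc (g5 ok515 ov515 rfl) 
  (gc (g5 ok516 ov516 rfl) (gc (g5 ok517 ov517 rfl) (gc (g5 ok518 ov518 rfl) (gc (g5 ok519 ov519 rfl) 
  (gc (g5 ok520 ov520 rfl) (gc (g5 ok521 ov521 rfl) (gc (g5 ok522 ov522 rfl) (gc (g5 ok523 ov523 rfl) 
  (gc (g5 ok524 ov524 rfl) (gc (g5 ok525 ov525 rfl) (gc (g5 ok526 ov526 rfl) (gc (g5 ok527 ov527 rfl) 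
  gn))))))))))))))))

theorem okB33 : ∀ Q ∈ B33, Gd Q :=
  (gc (g5 ok528 ov528 rfl) (gc (g5 ok529 ov529 rfl) (gc (g5 ok530 ov530 rfl) (gc (g5 ok531 ov531 rfl) 
  (gc (g5 ok532 ov532 rfl) (gc (g5 ok533 ov533 rfl) (gc (g5 ok534 ov534 rfl) (gc (g5 ok535 ov535 rfl) 
  (gc (g5 ok536 ov536 rfl) (gc (g5 ok537 ov537 rfl) (gc (g5 ok538 ov538 rfl) (gc (g5 ok539 ov539 rfl) 
  (gc (g5 ok540 ov540 rfl) (gc (g5 ok541 ov541 rfl) (gc (g5 ok542 ov542 rfl) (gc (g5 ok543 ov543 rfl) 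
  gn))))))))))))))))

theorem okB34 : ∀ Q ∈ B34, Gd Q :=
  (gc (g5 ok544 ov544 rfl) (gc (g5 ok545 ov545 rfl) (gc (g5 ok546 ov546 rfl) (gc (g5 ok547 ov547 rfl) 
  (gc (g5 ok548 ov548 rfl) (gc (g5 ok549 ov549 rfl) (gc (g5 ok550 ov550 rfl) (gc (g5 ok551 ov551 rfl) 
  (gc (g5 ok552 ov552 rfl) (gc (g5 ok553 ov553 rfl) (gc (g5 ok554 ov554 rfl) (gc (g5 ok555 ov555 rfl) 
  (gc (g5 ok556 ov556 rfl) (gc (g5 ok557 ov557 rfl) (gc (g5 ok558 ov558 rfl) (gc (g5 ok559 ov559 rfl) 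
  gn))))))))))))))))

theorem okB35 : ∀ Q ∈ B35, Gd Q :=
  (gc (g5 ok560 ov560 rfl) (gc (g5 ok561 ov561 rfl) (gc (g5 ok562 ov562 rfl) (gc (g5 ok563 ov563 rfl) 
  (gc (g5 ok564 ov564 rfl) (gc (g5 ok565 ov565 rfl) (gc (g5 ok566 ov566 rfl) (gc (g5 ok567 ov567 rfl) 
  (gc (g5 ok568 ov568 rfl) (gc (g5 ok569 ov569 rfl) (gc (g5 ok570 ov570 rfl) (gc (g5 ok571 ov571 rfl) 
  (gc (g5 ok572 ov572 rfl) (gc (g5 ok573 ov573 rfl) (gc (g5 ok574 ov574 rfl) (gc (g5 ok575 ov575 rfl) 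
  gn))))))))))))))))

theorem okB36 : ∀ Q ∈ B36, Gd Q :=
  (gc (g5 ok576 ov576 rfl) (gc (g5 ok577 ov577 rfl) (gc (g5 ok578 ov578 rfl) (gc (g5 ok579 ov579 rfl) 
  (gc (g5 ok580 ov580 rfl) (gc (g5 ok581 ov581 rfl) (gc (g5 ok582 ov582 rfl) (gc (g5 ok583 ov583 rfl) 
  (gc (g5 ok584 ov584 rfl) (gc (g5 ok585 ov585 rfl) (gc (g5 ok586 ov586 rfl) (gc (g5 ok587 ov587 rfl) 
  (gc (g5 ok588 ov588 rfl) (gc (g5 ok589 ov589 rfl) (gc (g5 ok590 ov590 rfl) (gc (g5 ok591 ov591 rfl) 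
  gn))))))))))))))))

theorem okB37 : ∀ Q ∈ B37, Gd Q :=
  (gc (g5 ok592 ov592 rfl) (gc (g5 ok593 ov593 rfl) (gc (g5 ok594 ov594 rfl) (gc (g5 ok595 ov595 rfl) 
  (gc (g5 ok596 ov596 rfl) (gc (g5 ok597 ov597 rfl) (gc (g5 ok598 ov598 rfl) (gc (g5 ok599 ov599 rfl) 
  (gc (g5 ok600 ov600 rfl) (gc (g5 ok601 ov601 rfl) (gc (g5 ok602 ov602 rfl) (gc (g5 ok603 ov603 rfl) 
  (gc (g5 ok604 ov604 rfl) (gc (g5 ok605 ov605 rfl) (gc (g5 ok606 ov606 rfl) (gc (g5 ok607 ov607 rfl) 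
  gn))))))))))))))))

theorem okB38 : ∀ Q ∈ B38, Gd Q :=
  (gc (g5 ok608 ov608 rfl) (gc (g5 ok609 ov609 rfl) (gc (g5 ok610 ov610 rfl) (gc (g5 ok611 ov611 rfl) 
  (gc (g5 ok612 ov612 rfl) (gc (g5 ok613 ov613 rfl) (gc (g5 ok614 ov614 rfl) (gc (g5 ok615 ov615 rfl) 
  (gc (g5 ok616 ov616 rfl) (gc (g5 ok617 ov617 rfl) (gc (g5 ok618 ov618 rfl) (gc (g5 ok619 ov619 rfl) 
  (gc (g5 ok620 ov620 rfl) (gc (g5 ok621 ov621 rfl) (gc (g5 ok622 ov622 rfl) (gc (g5 ok623 ov623 rfl) 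
  gn))))))))))))))))

theorem okB39 : ∀ Q ∈ B39, Gd Q :=
  (gc (g5 ok624 ov624 rfl) (gc (g5 ok625 ov625 rfl) (gc (g5 ok626 ov626 rfl) (gc (g5 ok627 ov627 rfl) 
  (gc (g5 ok628 ov628 rfl) (gc (g5 ok629 ov629 rfl) (gc (g5 ok630 ov630 rfl) (gc (g5 ok631 ov631 rfl) 
  (gc (g5 ok632 ov632 rfl) (gc (g5 ok633 ov633 rfl) (gc (g5 ok634 ov634 rfl) (gc (g5 ok635 ov635 rfl) 
  (gc (g5 ok636 ov636 rfl) (gc (g5 ok637 ov637 rfl) (gc (g5 ok638 ov638 rfl) (gc (g5 ok639 ov639 rfl) 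
  gn))))))))))))))))

theorem okB40 : ∀ Q ∈ B40, Gd Q :=
  (gc (g5 ok640 ov640 rfl) (gc (g5 ok641 ov641 rfl) (gc (g5 ok642 ov642 rfl) (gc (g5 ok643 ov643 rfl) 
  (gc (g5 ok644 ov644 rfl) (gc (g5 ok645 ov645 rfl) (gc (g5 ok646 ov646 rfl) (gc (g5 ok647 ov647 rfl) 
  (gc (g5 ok648 ov648 rfl) (gc (g5 ok649 ov649 rfl) (gc (g5 ok650 ov650 rfl) (gc (g5 ok651 ov651 rfl) 
  (gc (g5 ok652 ov652 rfl) (gc (g5 ok653 ov653 rfl) (gc (g5 ok654 ov654 rfl) (gc (g5 ok655 ov655 rfl) 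
  gn))))))))))))))))

theorem okB41 : ∀ Q ∈ B41, Gd Q :=
  (gc (g5 ok656 ov656 rfl) (gc (g5 ok657 ov657 rfl) (gc (g5 ok658 ov658 rfl) (gc (g5 ok659 ov659 rfl) 
  (gc (g5 ok660 ov660 rfl) (gc (g5 ok661 ov661 rfl) (gc (g5 ok662 ov662 rfl) (gc (g5 ok663 ov663 rfl) 
  (gc (g5 ok664 ov664 rfl) (gc (g5 ok665 ov665 rfl) (gc (g5 ok666 ov666 rfl) (gc (g5 ok667 ov667 rfl) 
  (gc (g5 ok668 ov668 rfl) (gc (g5 ok669 ov669 rfl) (gc (g5 ok670 ov670 rfl) (gc (g5 ok671 ov671 rfl) 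
  gn))))))))))))))))

theorem okB42 : ∀ Q ∈ B42, Gd Q :=
  (gc (g5 ok672 ov672 rfl) (gc (g5 ok673 ov673 rfl) (gc (g5 ok674 ov674 rfl) (gc (g5 ok675 ov675 rfl) 
  (gc (g5 ok676 ov676 rfl) (gc (g5 ok677 ov677 rfl) (gc (g5 ok678 ov678 rfl) (gc (g5 ok679 ov679 rfl) 
  (gc (g5 ok680 ov680 rfl) (gc (g5 ok681 ov681 rfl) (gc (g5 ok682 ov682 rfl) (gc (g5 ok683 ov683 rfl) 
  (gc (g5 ok684 ov684 rfl) (gc (g5 ok685 ov685 rfl) (gc (g5 ok686 ov686 rfl) (gc (g5 ok687 ov687 rfl) 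
  gn))))))))))))))))

theorem okB43 : ∀ Q ∈ B43, Gd Q :=
  (gc (g5 ok688 ov688 rfl) (gc (g5 ok689 ov689 rfl) (gc (g5 ok690 ov690 rfl) (gc (g5 ok691 ov691 rfl) 
  (gc (g5 ok692 ov692 rfl) (gc (g5 ok693 ov693 rfl) (gc (g5 ok694 ov694 rfl) (gc (g5 ok695 ov695 rfl) 
  (gc (g5 ok696 ov696 rfl) (gc (g5 ok697 ov697 rfl) (gc (g5 ok698 ov698 rfl) (gc (g5 ok699 ov699 rfl) 
  (gc (g5 ok700 ov700 rfl) (gc (g5 ok701 ov701 rfl) (gc (g5 ok702 ov702 rfl) (gc (g5 ok703 ov703 rfl) 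
  gn))))))))))))))))

theorem okB44 : ∀ Q ∈ B44, Gd Q :=
  (gc (g5 ok704 ov704 rfl) (gc (g5 ok705 ov705 rfl) (gc (g5 ok706 ov706 rfl) (gc (g5 ok707 ov707 rfl) 
  (gc (g5 ok708 ov708 rfl) (gc (g5 ok709 ov709 rfl) (gc (g5 ok710 ov710 rfl) (gc (g5 ok711 ov711 rfl) 
  (gc (g5 ok712 ov712 rfl) (gc (g5 ok713 ov713 rfl) (gc (g5 ok714 ov714 rfl) (gc (g5 ok715 ov715 rfl) 
  (gc (g5 ok716 ov716 rfl) (gc (g5 ok717 ov717 rfl) (gc (g5 ok718 ov718 rfl) (gc (g5 ok719 ov719 rfl) 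
  gn))))))))))))))))

theorem okB45 : ∀ Q ∈ B45, Gd Q :=
  (gc (g5 ok720 ov720 rfl) (gc (g5 ok721 ov721 rfl) (gc (g5 ok722 ov722 rfl) (gc (g5 ok723 ov723 rfl) 
  (gc (g5 ok724 ov724 rfl) (gc (g5 ok725 ov725 rfl) (gc (g5 ok726 ov726 rfl) (gc (g5 ok727 ov727 rfl) 
  (gc (g5 ok728 ov728 rfl) (gc (g5 ok729 ov729 rfl) (gc (g5 ok730 ov730 rfl) (gc (g5 ok731 ov731 rfl) 
  (gc (g5 ok732 ov732 rfl) (gc (g5 ok733 ov733 rfl) (gc (g5 ok734 ov734 rfl) (gc (g5 ok735 ov735 rfl) 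
  gn))))))))))))))))

theorem okB46 : ∀ Q ∈ B46, Gd Q :=
  (gc (g5 ok736 ov736 rfl) (gc (g5 ok737 ov737 rfl) (gc (g5 ok738 ov738 rfl) (gc (g5 ok739 ov739 rfl) 
  (gc (g5 ok740 ov740 rfl) (gc (g5 ok741 ov741 rfl) (gc (g5 ok742 ov742 rfl) (gc (g5 ok743 ov743 rfl) 
  (gc (g5 ok744 ov744 rfl) (gc (g5 ok745 ov745 rfl) (gc (g5 ok746 ov746 rfl) (gc (g5 ok747 ov747 rfl) 
  (gc (g5 ok748 ov748 rfl) (gc (g5 ok749 ov749 rfl) (gc (g5 ok750 ov750 rfl) (gc (g5 ok751 ov751 rfl) 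
  gn))))))))))))))))

theorem okB47 : ∀ Q ∈ B47, Gd Q :=
  (gc (g5 ok752 ov752 rfl) (gc (g5 ok753 ov753 rfl) (gc (g5 ok754 ov754 rfl) (gc (g5 ok755 ov755 rfl) 
  (gc (g5 ok756 ov756 rfl) (gc (g5 ok757 ov757 rfl) (gc (g5 ok758 ov758 rfl) (gc (g5 ok759 ov759 rfl) 
  (gc (g5 ok760 ov760 rfl) (gc (g5 ok761 ov761 rfl) (gc (g5 ok762 ov762 rfl) (gc (g5 ok763 ov763 rfl) 
  (gc (g5 ok764 ov764 rfl) (gc (g5 ok765 ov765 rfl) (gc (g5 ok766 ov766 rfl) (gc (g5 ok767 ov767 rfl) 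
  gn))))))))))))))))

theorem okB48 : ∀ Q ∈ B48, Gd Q :=
  (gc (g5 ok768 ov768 rfl) (gc (g5 ok769 ov769 rfl) (gc (g5 ok770 ov770 rfl) (gc (g5 ok771 ov771 rfl) 
  (gc (g5 ok772 ov772 rfl) (gc (g5 ok773 ov773 rfl) (gc (g5 ok774 ov774 rfl) (gc (g5 ok775 ov775 rfl) 
  (gc (g5 ok776 ov776 rfl) (gc (g5 ok777 ov777 rfl) (gc (g5 ok778 ov778 rfl) (gc (g5 ok779 ov779 rfl) 
  (gc (g5 ok780 ov780 rfl) (gc (g5 ok781 ov781 rfl) (gc (g5 ok782 ov782 rfl) (gc (g5 ok783 ov783 rfl) 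
  gn))))))))))))))))

theorem okB49 : ∀ Q ∈ B49, Gd Q :=
  (gc (g5 ok784 ov784 rfl) (gc (g5 ok785 ov785 rfl) (gc (g5 ok786 ov786 rfl) (gc (g5 ok787 ov787 rfl) 
  (gc (g5 ok788 ov788 rfl) (gc (g5 ok789 ov789 rfl) (gc (g5 ok790 ov790 rfl) (gc (g5 ok791 ov791 rfl) 
  (gc (g5 ok792 ov792 rfl) (gc (g5 ok793 ov793 rfl) (gc (g5 ok794 ov794 rfl) (gc (g5 ok795 ov795 rfl) 
  (gc (g5 ok796 ov796 rfl) (gc (g5 ok797 ov797 rfl) (gc (g5 ok798 ov798 rfl) (gc (g5 ok799 ov799 rfl) 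
  gn))))))))))))))))

theorem okB50 : ∀ Q ∈ B50, Gd Q :=
  (gc (g5 ok800 ov800 rfl) (gc (g5 ok801 ov801 rfl) (gc (g5 ok802 ov802 rfl) (gc (g5 ok803 ov803 rfl) 
  (gc (g5 ok804 ov804 rfl) (gc (g5 ok805 ov805 rfl) (gc (g5 ok806 ov806 rfl) (gc (g5 ok807 ov807 rfl) 
  (gc (g5 ok808 ov808 rfl) (gc (g5 ok809 ov809 rfl) (gc (g5 ok810 ov810 rfl) (gc (g5 ok811 ov811 rfl) 
  (gc (g5 ok812 ov812 rfl) (gc (g5 ok813 ov813 rfl) (gc (g5 ok814 ov814 rfl) (gc (g5 ok815 ov815 rfl) 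
  gn))))))))))))))))

theorem okB51 : ∀ Q ∈ B51, Gd Q :=
  (gc (g5 ok816 ov816 rfl) (gc (g5 ok817 ov817 rfl) (gc (g5 ok818 ov818 rfl) (gc (g5 ok819 ov819 rfl) 
  (gc (g5 ok820 ov820 rfl) (gc (g5 ok821 ov821 rfl) (gc (g5 ok822 ov822 rfl) (gc (g5 ok823 ov823 rfl) 
  (gc (g5 ok824 ov824 rfl) (gc (g5 ok825 ov825 rfl) (gc (g5 ok826 ov826 rfl) (gc (g5 ok827 ov827 rfl) 
  (gc (g5 ok828 ov828 rfl) (gc (g5 ok829 ov829 rfl) (gc (g5 ok830 ov830 rfl) (gc (g5 ok831 ov831 rfl) 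
  gn))))))))))))))))

theorem okB52 : ∀ Q ∈ B52, Gd Q :=
  (gc (g5 ok832 ov832 rfl) (gc (g5 ok833 ov833 rfl) (gc (g5 ok834 ov834 rfl) (gc (g5 ok835 ov835 rfl) 
  (gc (g5 ok836 ov836 rfl) (gc (g5 ok837 ov837 rfl) (gc (g5 ok838 ov838 rfl) (gc (g5 ok839 ov839 rfl) 
  (gc (g5 ok840 ov840 rfl) (gc (g5 ok841 ov841 rfl) (gc (g5 ok842 ov842 rfl) (gc (g5 ok843 ov843 rfl) 
  (gc (g5 ok844 ov844 rfl) (gc (g5 ok845 ov845 rfl) (gc (g5 ok846 ov846 rfl) (gc (g5 ok847 ov847 rfl) 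
  gn))))))))))))))))

theorem okB53 : ∀ Q ∈ B53, Gd Q :=
  (gc (g5 ok848 ov848 rfl) (gc (g5 ok849 ov849 rfl) (gc (g5 ok850 ov850 rfl) (gc (g5 ok851 ov851 rfl) 
  (gc (g5 ok852 ov852 rfl) (gc (g5 ok853 ov853 rfl) (gc (g5 ok854 ov854 rfl) (gc (g5 ok855 ov855 rfl) 
  (gc (g5 ok856 ov856 rfl) (gc (g5 ok857 ov857 rfl) (gc (g5 ok858 ov858 rfl) (gc (g5 ok859 ov859 rfl) 
  (gc (g5 ok860 ov860 rfl) (gc (g5 ok861 ov861 rfl) (gc (g5 ok862 ov862 rfl) (gc (g5 ok863 ov863 rfl) 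
  gn))))))))))))))))

theorem okB54 : ∀ Q ∈ B54, Gd Q :=
  (gc (g5 ok864 ov864 rfl) (gc (g5 ok865 ov865 rfl) (gc (g5 ok866 ov866 rfl) (gc (g5 ok867 ov867 rfl) 
  (gc (g5 ok868 ov868 rfl) (gc (g5 ok869 ov869 rfl) (gc (g5 ok870 ov870 rfl) (gc (g5 ok871 ov871 rfl) 
  (gc (g5 ok872 ov872 rfl) (gc (g5 ok873 ov873 rfl) (gc (g5 ok874 ov874 rfl) (gc (g5 ok875 ov875 rfl) 
  (gc (g5 ok876 ov876 rfl) (gc (g5 ok877 ov877 rfl) (gc (g5 ok878 ov878 rfl) (gc (g5 ok879 ov879 rfl) 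
  gn))))))))))))))))

theorem okB55 : ∀ Q ∈ B55, Gd Q :=
  (gc (g5 ok880 ov880 rfl) (gc (g5 ok881 ov881 rfl) (gc (g5 ok882 ov882 rfl) (gc (g5 ok883 ov883 rfl) 
  (gc (g5 ok884 ov884 rfl) (gc (g5 ok885 ov885 rfl) (gc (g5 ok886 ov886 rfl) (gc (g5 ok887 ov887 rfl) 
  (gc (g5 ok888 ov888 rfl) (gc (g5 ok889 ov889 rfl) (gc (g5 ok890 ov890 rfl) (gc (g5 ok891 ov891 rfl) 
  (gc (g5 ok892 ov892 rfl) (gc (g5 ok893 ov893 rfl) (gc (g5 ok894 ov894 rfl) (gc (g5 ok895 ov895 rfl) 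
  gn))))))))))))))))

theorem okB56 : ∀ Q ∈ B56, Gd Q :=
  (gc (g5 ok896 ov896 rfl) (gc (g5 ok897 ov897 rfl) (gc (g5 ok898 ov898 rfl) (gc (g5 ok899 ov899 rfl) 
  (gc (g5 ok900 ov900 rfl) (gc (g5 ok901 ov901 rfl) (gc (g5 ok902 ov902 rfl) (gc (g5 ok903 ov903 rfl) 
  (gc (g5 ok904 ov904 rfl) (gc (g5 ok905 ov905 rfl) (gc (g5 ok906 ov906 rfl) (gc (g5 ok907 ov907 rfl) 
  (gc (g5 ok908 ov908 rfl) (gc (g5 ok909 ov909 rfl) (gc (g5 ok910 ov910 rfl) (gc (g5 ok911 ov911 rfl) 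
  gn))))))))))))))))

theorem okB57 : ∀ Q ∈ B57, Gd Q :=
  (gc (g5 ok912 ov912 rfl) (gc (g5 ok913 ov913 rfl) (gc (g5 ok914 ov914 rfl) (gc (g5 ok915 ov915 rfl) 
  (gc (g5 ok916 ov916 rfl) (gc (g5 ok917 ov917 rfl) (gc (g5 ok918 ov918 rfl) (gc (g5 ok919 ov919 rfl) 
  (gc (g5 ok920 ov920 rfl) (gc (g5 ok921 ov921 rfl) (gc (g5 ok922 ov922 rfl) (gc (g5 ok923 ov923 rfl) 
  (gc (g5 ok924 ov924 rfl) (gc (g5 ok925 ov925 rfl) (gc (g5 ok926 ov926 rfl) (gc (g5 ok927 ov927 rfl) 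
  gn))))))))))))))))

theorem okB58 : ∀ Q ∈ B58, Gd Q :=
  (gc (g5 ok928 ov928 rfl) (gc (g5 ok929 ov929 rfl) (gc (g5 ok930 ov930 rfl) (gc (g5 ok931 ov931 rfl) 
  (gc (g5 ok932 ov932 rfl) (gc (g5 ok933 ov933 rfl) (gc (g5 ok934 ov934 rfl) (gc (g5 ok935 ov935 rfl) 
  (gc (g5 ok936 ov936 rfl) (gc (g5 ok937 ov937 rfl) (gc (g5 ok938 ov938 rfl) (gc (g5 ok939 ov939 rfl) 
  (gc (g5 ok940 ov940 rfl) (gc (g5 ok941 ov941 rfl) (gc (g5 ok942 ov942 rfl) (gc (g5 ok943 ov943 rfl) 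
  gn))))))))))))))))

theorem okB59 : ∀ Q ∈ B59, Gd Q :=
  (gc (g5 ok944 ov944 rfl) (gc (g5 ok945 ov945 rfl) (gc (g5 ok946 ov946 rfl) (gc (g5 ok947 ov947 rfl) 
  (gc (g5 ok948 ov948 rfl) (gc (g5 ok949 ov949 rfl) (gc (g5 ok950 ov950 rfl) (gc (g5 ok951 ov951 rfl) 
  (gc (g5 ok952 ov952 rfl) (gc (g5 ok953 ov953 rfl) (gc (g5 ok954 ov954 rfl) (gc (g5 ok955 ov955 rfl) 
  (gc (g5 ok956 ov956 rfl) (gc (g5 ok957 ov957 rfl) (gc (g5 ok958 ov958 rfl) (gc (g5 ok959 ov959 rfl) 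
  gn))))))))))))))))

theorem okB60 : ∀ Q ∈ B60, Gd Q :=
  (gc (g5 ok960 ov960 rfl) (gc (g5 ok961 ov961 rfl) (gc (g5 ok962 ov962 rfl) (gc (g5 ok963 ov963 rfl) 
  (gc (g5 ok964 ov964 rfl) (gc (g5 ok965 ov965 rfl) (gc (g5 ok966 ov966 rfl) (gc (g5 ok967 ov967 rfl) 
  (gc (g5 ok968 ov968 rfl) (gc (g5 ok969 ov969 rfl) (gc (g5 ok970 ov970 rfl) (gc (g5 ok971 ov971 rfl) 
  (gc (g5 ok972 ov972 rfl) (gc (g5 ok973 ov973 rfl) (gc (g5 ok974 ov974 rfl) (gc (g5 ok975 ov975 rfl) 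
  gn))))))))))))))))

theorem okB61 : ∀ Q ∈ B61, Gd Q :=
  (gc (g5 ok976 ov976 rfl) (gc (g5 ok977 ov977 rfl) (gc (g5 ok978 ov978 rfl) (gc (g5 ok979 ov979 rfl) 
  (gc (g5 ok980 ov980 rfl) (gc (g5 ok981 ov981 rfl) (gc (g5 ok982 ov982 rfl) (gc (g5 ok983 ov983 rfl) 
  (gc (g5 ok984 ov984 rfl) (gc (g5 ok985 ov985 rfl) (gc (g5 ok986 ov986 rfl) (gc (g5 ok987 ov987 rfl) 
  (gc (g5 ok988 ov988 rfl) (gc (g5 ok989 ov989 rfl) (gc (g5 ok990 ov990 rfl) (gc (g5 ok991 ov991 rfl) 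
  gn))))))))))))))))

theorem okB62 : ∀ Q ∈ B62, Gd Q :=
  (gc (g5 ok992 ov992 rfl) (gc (g5 ok993 ov993 rfl) (gc (g5 ok994 ov994 rfl) (gc (g5 ok995 ov995 rfl) 
  (gc (g5 ok996 ov996 rfl) (gc (g5 ok997 ov997 rfl) (gc (g5 ok998 ov998 rfl) (gc (g5 ok999 ov999 rfl) 
  (gc (g5 ok1000 ov1000 rfl) (gc (g5 ok1001 ov1001 rfl) (gc (g5 ok1002 ov1002 rfl) (gc (g5 ok1003 ov1003 rfl) 
  (gc (g5 ok1004 ov1004 rfl) (gc (g5 ok1005 ov1005 rfl) (gc (g5 ok1006 ov1006 rfl) (gc (g5 ok1007 ov1007 rfl) 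
  gn))))))))))))))))

theorem okB63 : ∀ Q ∈ B63, Gd Q :=
  (gc (g5 ok1008 ov1008 rfl) (gc (g5 ok1009 ov1009 rfl) (gc (g5 ok1010 ov1010 rfl) (gc (g5 ok1011 ov1011 rfl) 
  (gc (g5 ok1012 ov1012 rfl) (gc (g5 ok1013 ov1013 rfl) (gc (g5 ok1014 ov1014 rfl) (gc (g5 ok1015 ov1015 rfl) 
  (gc (g5 ok1016 ov1016 rfl) (gc (g5 ok1017 ov1017 rfl) (gc (g5 ok1018 ov1018 rfl) (gc (g5 ok1019 ov1019 rfl) 
  (gc (g5 ok1020 ov1020 rfl) (gc (g5 ok1021 ov1021 rfl) (gc (g5 ok1022 ov1022 rfl) (gc (g5 ok1023 ov1023 rfl) 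
  gn))))))))))))))))

theorem okB64 : ∀ Q ∈ B64, Gd Q :=
  (gc (g5 ok1024 ov1024 rfl) (gc (g5 ok1025 ov1025 rfl) (gc (g5 ok1026 ov1026 rfl) (gc (g5 ok1027 ov1027 rfl) 
  (gc (g5 ok1028 ov1028 rfl) (gc (g5 ok1029 ov1029 rfl) (gc (g5 ok1030 ov1030 rfl) (gc (g5 ok1031 ov1031 rfl) 
  (gc (g5 ok1032 ov1032 rfl) (gc (g5 ok1033 ov1033 rfl) (gc (g5 ok1034 ov1034 rfl) (gc (g5 ok1035 ov1035 rfl) 
  (gc (g5 ok1036 ov1036 rfl) (gc (g5 ok1037 ov1037 rfl) (gc (g5 ok1038 ov1038 rfl) (gc (g5 ok1039 ov1039 rfl) 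
  gn))))))))))))))))

theorem okB65 : ∀ Q ∈ B65, Gd Q :=
  (gc (g5 ok1040 ov1040 rfl) (gc (g5 ok1041 ov1041 rfl) (gc (g5 ok1042 ov1042 rfl) (gc (g5 ok1043 ov1043 rfl) 
  (gc (g5 ok1044 ov1044 rfl) (gc (g5 ok1045 ov1045 rfl) (gc (g5 ok1046 ov1046 rfl) (gc (g5 ok1047 ov1047 rfl) 
  (gc (g5 ok1048 ov1048 rfl) (gc (g5 ok1049 ov1049 rfl) (gc (g5 ok1050 ov1050 rfl) (gc (g5 ok1051 ov1051 rfl) 
  (gc (g5 ok1052 ov1052 rfl) (gc (g5 ok1053 ov1053 rfl) (gc (g5 ok1054 ov1054 rfl) (gc (g5 ok1055 ov1055 rfl) 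
  gn))))))))))))))))

theorem okB66 : ∀ Q ∈ B66, Gd Q :=
  (gc (g5 ok1056 ov1056 rfl) (gc (g5 ok1057 ov1057 rfl) (gc (g5 ok1058 ov1058 rfl) (gc (g5 ok1059 ov1059 rfl) 
  (gc (g5 ok1060 ov1060 rfl) (gc (g5 ok1061 ov1061 rfl) (gc (g5 ok1062 ov1062 rfl) (gc (g5 ok1063 ov1063 rfl) 
  (gc (g5 ok1064 ov1064 rfl) (gc (g5 ok1065 ov1065 rfl) (gc (g5 ok1066 ov1066 rfl) (gc (g5 ok1067 ov1067 rfl) 
  (gc (g5 ok1068 ov1068 rfl) (gc (g5 ok1069 ov1069 rfl) (gc (g5 ok1070 ov1070 rfl) (gc (g5 ok1071 ov1071 rfl) 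
  gn))))))))))))))))

theorem okB67 : ∀ Q ∈ B67, Gd Q :=
  (gc (g5 ok1072 ov1072 rfl) (gc (g5 ok1073 ov1073 rfl) (gc (g5 ok1074 ov1074 rfl) (gc (g5 ok1075 ov1075 rfl) 
  (gc (g5 ok1076 ov1076 rfl) (gc (g5 ok1077 ov1077 rfl) (gc (g5 ok1078 ov1078 rfl) (gc (g5 ok1079 ov1079 rfl) 
  (gc (g5 ok1080 ov1080 rfl) (gc (g5 ok1081 ov1081 rfl) (gc (g5 ok1082 ov1082 rfl) (gc (g5 ok1083 ov1083 rfl) 
  (gc (g5 ok1084 ov1084 rfl) (gc (g5 ok1085 ov1085 rfl) (gc (g5 ok1086 ov1086 rfl) (gc (g5 ok1087 ov1087 rfl) 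
  gn))))))))))))))))

theorem okB68 : ∀ Q ∈ B68, Gd Q :=
  (gc (g5 ok1088 ov1088 rfl) (gc (g5 ok1089 ov1089 rfl) (gc (g5 ok1090 ov1090 rfl) (gc (g5 ok1091 ov1091 rfl) 
  (gc (g5 ok1092 ov1092 rfl) (gc (g5 ok1093 ov1093 rfl) (gc (g5 ok1094 ov1094 rfl) (gc (g5 ok1095 ov1095 rfl) 
  (gc (g5 ok1096 ov1096 rfl) (gc (g5 ok1097 ov1097 rfl) (gc (g5 ok1098 ov1098 rfl) (gc (g5 ok1099 ov1099 rfl) 
  (gc (g5 ok1100 ov1100 rfl) (gc (g5 ok1101 ov1101 rfl) (gc (g5 ok1102 ov1102 rfl) (gc (g5 ok1103 ov1103 rfl) 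
  gn))))))))))))))))

theorem okB69 : ∀ Q ∈ B69, Gd Q :=
  (gc (g5 ok1104 ov1104 rfl) (gc (g5 ok1105 ov1105 rfl) (gc (g5 ok1106 ov1106 rfl) (gc (g5 ok1107 ov1107 rfl) 
  (gc (g5 ok1108 ov1108 rfl) (gc (g5 ok1109 ov1109 rfl) (gc (g5 ok1110 ov1110 rfl) (gc (g5 ok1111 ov1111 rfl) 
  (gc (g5 ok1112 ov1112 rfl) (gc (g5 ok1113 ov1113 rfl) (gc (g5 ok1114 ov1114 rfl) (gc (g5 ok1115 ov1115 rfl) 
  (gc (g5 ok1116 ov1116 rfl) (gc (g5 ok1117 ov1117 rfl) (gc (g5 ok1118 ov1118 rfl) (gc (g5 ok1119 ov1119 rfl) 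
  gn))))))))))))))))

theorem okB70 : ∀ Q ∈ B70, Gd Q :=
  (gc (g5 ok1120 ov1120 rfl) (gc (g5 ok1121 ov1121 rfl) (gc (g5 ok1122 ov1122 rfl) (gc (g5 ok1123 ov1123 rfl) 
  (gc (g5 ok1124 ov1124 rfl) (gc (g5 ok1125 ov1125 rfl) (gc (g5 ok1126 ov1126 rfl) (gc (g5 ok1127 ov1127 rfl) 
  (gc (g5 ok1128 ov1128 rfl) (gc (g5 ok1129 ov1129 rfl) (gc (g5 ok1130 ov1130 rfl) (gc (g5 ok1131 ov1131 rfl) 
  (gc (g5 ok1132 ov1132 rfl) (gc (g5 ok1133 ov1133 rfl) (gc (g5 ok1134 ov1134 rfl) (gc (g5 ok1135 ov1135 rfl) 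
  gn))))))))))))))))

theorem okB71 : ∀ Q ∈ B71, Gd Q :=
  (gc (g5 ok1136 ov1136 rfl) (gc (g5 ok1137 ov1137 rfl) (gc (g5 ok1138 ov1138 rfl) (gc (g5 ok1139 ov1139 rfl) 
  (gc (g5 ok1140 ov1140 rfl) (gc (g5 ok1141 ov1141 rfl) (gc (g5 ok1142 ov1142 rfl) (gc (g5 ok1143 ov1143 rfl) 
  (gc (g5 ok1144 ov1144 rfl) (gc (g5 ok1145 ov1145 rfl) (gc (g5 ok1146 ov1146 rfl) (gc (g5 ok1147 ov1147 rfl) 
  (gc (g5 ok1148 ov1148 rfl) (gc (g5 ok1149 ov1149 rfl) (gc (g5 ok1150 ov1150 rfl) (gc (g5 ok1151 ov1151 rfl) 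
  gn))))))))))))))))

theorem okB72 : ∀ Q ∈ B72, Gd Q :=
  (gc (g5 ok1152 ov1152 rfl) (gc (g5 ok1153 ov1153 rfl) (gc (g5 ok1154 ov1154 rfl) (gc (g5 ok1155 ov1155 rfl) 
  (gc (g5 ok1156 ov1156 rfl) (gc (g5 ok1157 ov1157 rfl) (gc (g5 ok1158 ov1158 rfl) (gc (g5 ok1159 ov1159 rfl) 
  (gc (g5 ok1160 ov1160 rfl) (gc (g5 ok1161 ov1161 rfl) (gc (g5 ok1162 ov1162 rfl) (gc (g5 ok1163 ov1163 rfl) 
  (gc (g5 ok1164 ov1164 rfl) (gc (g5 ok1165 ov1165 rfl) (gc (g5 ok1166 ov1166 rfl) (gc (g5 ok1167 ov1167 rfl) 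
  gn))))))))))))))))

theorem okB73 : ∀ Q ∈ B73, Gd Q :=
  (gc (g5 ok1168 ov1168 rfl) (gc (g5 ok1169 ov1169 rfl) (gc (g5 ok1170 ov1170 rfl) (gc (g5 ok1171 ov1171 rfl) 
  (gc (g5 ok1172 ov1172 rfl) (gc (g5 ok1173 ov1173 rfl) (gc (g5 ok1174 ov1174 rfl) (gc (g5 ok1175 ov1175 rfl) 
  (gc (g5 ok1176 ov1176 rfl) (gc (g5 ok1177 ov1177 rfl) (gc (g5 ok1178 ov1178 rfl) (gc (g5 ok1179 ov1179 rfl) 
  (gc (g5 ok1180 ov1180 rfl) (gc (g5 ok1181 ov1181 rfl) (gc (g5 ok1182 ov1182 rfl) (gc (g5 ok1183 ov1183 rfl) 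
  gn))))))))))))))))

theorem okB74 : ∀ Q ∈ B74, Gd Q :=
  (gc (g5 ok1184 ov1184 rfl) (gc (g5 ok1185 ov1185 rfl) (gc (g5 ok1186 ov1186 rfl) (gc (g5 ok1187 ov1187 rfl) 
  (gc (g5 ok1188 ov1188 rfl) (gc (g5 ok1189 ov1189 rfl) (gc (g5 ok1190 ov1190 rfl) (gc (g5 ok1191 ov1191 rfl) 
  (gc (g5 ok1192 ov1192 rfl) (gc (g5 ok1193 ov1193 rfl) (gc (g5 ok1194 ov1194 rfl) (gc (g5 ok1195 ov1195 rfl) 
  (gc (g5 ok1196 ov1196 rfl) (gc (g5 ok1197 ov1197 rfl) (gc (g5 ok1198 ov1198 rfl) (gc (g5 ok1199 ov1199 rfl) 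
  gn))))))))))))))))

theorem okB75 : ∀ Q ∈ B75, Gd Q :=
  (gc (g5 ok1200 ov1200 rfl) (gc (g5 ok1201 ov1201 rfl) (gc (g5 ok1202 ov1202 rfl) (gc (g5 ok1203 ov1203 rfl) 
  (gc (g5 ok1204 ov1204 rfl) (gc (g5 ok1205 ov1205 rfl) (gc (g5 ok1206 ov1206 rfl) (gc (g5 ok1207 ov1207 rfl) 
  (gc (g5 ok1208 ov1208 rfl) (gc (g5 ok1209 ov1209 rfl) (gc (g5 ok1210 ov1210 rfl) (gc (g5 ok1211 ov1211 rfl) 
  (gc (g5 ok1212 ov1212 rfl) (gc (g5 ok1213 ov1213 rfl) (gc (g5 ok1214 ov1214 rfl) (gc (g5 ok1215 ov1215 rfl) 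
  gn))))))))))))))))

theorem okB76 : ∀ Q ∈ B76, Gd Q :=
  (gc (g5 ok1216 ov1216 rfl) (gc (g5 ok1217 ov1217 rfl) (gc (g5 ok1218 ov1218 rfl) (gc (g5 ok1219 ov1219 rfl) 
  (gc (g5 ok1220 ov1220 rfl) (gc (g5 ok1221 ov1221 rfl) (gc (g5 ok1222 ov1222 rfl) (gc (g5 ok1223 ov1223 rfl) 
  (gc (g5 ok1224 ov1224 rfl) (gc (g5 ok1225 ov1225 rfl) (gc (g5 ok1226 ov1226 rfl) (gc (g5 ok1227 ov1227 rfl) 
  (gc (g5 ok1228 ov1228 rfl) (gc (g5 ok1229 ov1229 rfl) (gc (g5 ok1230 ov1230 rfl) (gc (g5 ok1231 ov1231 rfl) 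
  gn))))))))))))))))

theorem okB77 : ∀ Q ∈ B77, Gd Q :=
  (gc (g5 ok1232 ov1232 rfl) (gc (g5 ok1233 ov1233 rfl) (gc (g5 ok1234 ov1234 rfl) (gc (g5 ok1235 ov1235 rfl) 
  (gc (g5 ok1236 ov1236 rfl) (gc (g5 ok1237 ov1237 rfl) (gc (g5 ok1238 ov1238 rfl) (gc (g5 ok1239 ov1239 rfl) 
  (gc (g5 ok1240 ov1240 rfl) (gc (g5 ok1241 ov1241 rfl) (gc (g5 ok1242 ov1242 rfl) (gc (g5 ok1243 ov1243 rfl) 
  (gc (g5 ok1244 ov1244 rfl) (gc (g5 ok1245 ov1245 rfl) (gc (g5 ok1246 ov1246 rfl) (gc (g5 ok1247 ov1247 rfl) 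
  gn))))))))))))))))

theorem okB78 : ∀ Q ∈ B78, Gd Q :=
  (gc (g5 ok1248 ov1248 rfl) (gc (g5 ok1249 ov1249 rfl) (gc (g5 ok1250 ov1250 rfl) (gc (g5 ok1251 ov1251 rfl) 
  (gc (g5 ok1252 ov1252 rfl) (gc (g5 ok1253 ov1253 rfl) (gc (g5 ok1254 ov1254 rfl) (gc (g5 ok1255 ov1255 rfl) 
  (gc (g5 ok1256 ov1256 rfl) (gc (g5 ok1257 ov1257 rfl) (gc (g5 ok1258 ov1258 rfl) (gc (g5 ok1259 ov1259 rfl) 
  (gc (g5 ok1260 ov1260 rfl) (gc (g5 ok1261 ov1261 rfl) (gc (g5 ok1262 ov1262 rfl) (gc (g5 ok1263 ov1263 rfl) 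
  gn))))))))))))))))

theorem okB79 : ∀ Q ∈ B79, Gd Q :=
  (gc (g5 ok1264 ov1264 rfl) (gc (g5 ok1265 ov1265 rfl) (gc (g5 ok1266 ov1266 rfl) (gc (g5 ok1267 ov1267 rfl) 
  (gc (g5 ok1268 ov1268 rfl) (gc (g5 ok1269 ov1269 rfl) (gc (g5 ok1270 ov1270 rfl) (gc (g5 ok1271 ov1271 rfl) 
  (gc (g5 ok1272 ov1272 rfl) (gc (g5 ok1273 ov1273 rfl) (gc (g5 ok1274 ov1274 rfl) (gc (g5 ok1275 ov1275 rfl) 
  (gc (g5 ok1276 ov1276 rfl) (gc (g5 ok1277 ov1277 rfl) (gc (g5 ok1278 ov1278 rfl) (gc (g5 ok1279 ov1279 rfl) 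
  gn))))))))))))))))

theorem okB80 : ∀ Q ∈ B80, Gd Q :=
  (gc (g5 ok1280 ov1280 rfl) (gc (g5 ok1281 ov1281 rfl) (gc (g5 ok1282 ov1282 rfl) (gc (g5 ok1283 ov1283 rfl) 
  (gc (g5 ok1284 ov1284 rfl) (gc (g5 ok1285 ov1285 rfl) (gc (g5 ok1286 ov1286 rfl) (gc (g5 ok1287 ov1287 rfl) 
  (gc (g5 ok1288 ov1288 rfl) (gc (g5 ok1289 ov1289 rfl) (gc (g5 ok1290 ov1290 rfl) (gc (g5 ok1291 ov1291 rfl) 
  (gc (g5 ok1292 ov1292 rfl) (gc (g5 ok1293 ov1293 rfl) (gc (g5 ok1294 ov1294 rfl) (gc (g5 ok1295 ov1295 rfl) 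
  gn))))))))))))))))

theorem okB81 : ∀ Q ∈ B81, Gd Q :=
  (gc (g5 ok1296 ov1296 rfl) (gc (g5 ok1297 ov1297 rfl) (gc (g5 ok1298 ov1298 rfl) (gc (g5 ok1299 ov1299 rfl) 
  (gc (g5 ok1300 ov1300 rfl) (gc (g5 ok1301 ov1301 rfl) (gc (g5 ok1302 ov1302 rfl) (gc (g5 ok1303 ov1303 rfl) 
  (gc (g5 ok1304 ov1304 rfl) (gc (g5 ok1305 ov1305 rfl) (gc (g5 ok1306 ov1306 rfl) (gc (g5 ok1307 ov1307 rfl) 
  (gc (g5 ok1308 ov1308 rfl) (gc (g5 ok1309 ov1309 rfl) (gc (g5 ok1310 ov1310 rfl) (gc (g5 ok1311 ov1311 rfl) 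
  gn))))))))))))))))

theorem okB82 : ∀ Q ∈ B82, Gd Q :=
  (gc (g5 ok1312 ov1312 rfl) (gc (g5 ok1313 ov1313 rfl) (gc (g5 ok1314 ov1314 rfl) (gc (g5 ok1315 ov1315 rfl) 
  (gc (g5 ok1316 ov1316 rfl) (gc (g5 ok1317 ov1317 rfl) (gc (g5 ok1318 ov1318 rfl) (gc (g5 ok1319 ov1319 rfl) 
  (gc (g5 ok1320 ov1320 rfl) (gc (g5 ok1321 ov1321 rfl) (gc (g5 ok1322 ov1322 rfl) (gc (g5 ok1323 ov1323 rfl) 
  (gc (g5 ok1324 ov1324 rfl) (gc (g5 ok1325 ov1325 rfl) (gc (g5 ok1326 ov1326 rfl) (gc (g5 ok1327 ov1327 rfl) 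
  gn))))))))))))))))

theorem okB83 : ∀ Q ∈ B83, Gd Q :=
  (gc (g5 ok1328 ov1328 rfl) (gc (g5 ok1329 ov1329 rfl) (gc (g5 ok1330 ov1330 rfl) (gc (g5 ok1331 ov1331 rfl) 
  (gc (g5 ok1332 ov1332 rfl) (gc (g5 ok1333 ov1333 rfl) (gc (g5 ok1334 ov1334 rfl) (gc (g5 ok1335 ov1335 rfl) 
  (gc (g5 ok1336 ov1336 rfl) (gc (g5 ok1337 ov1337 rfl) (gc (g5 ok1338 ov1338 rfl) (gc (g5 ok1339 ov1339 rfl) 
  (gc (g5 ok1340 ov1340 rfl) (gc (g5 ok1341 ov1341 rfl) (gc (g5 ok1342 ov1342 rfl) (gc (g5 ok1343 ov1343 rfl) 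
  gn))))))))))))))))

theorem okB84 : ∀ Q ∈ B84, Gd Q :=
  (gc (g5 ok1344 ov1344 rfl) (gc (g5 ok1345 ov1345 rfl) (gc (g5 ok1346 ov1346 rfl) (gc (g5 ok1347 ov1347 rfl) 
  (gc (g5 ok1348 ov1348 rfl) (gc (g5 ok1349 ov1349 rfl) (gc (g5 ok1350 ov1350 rfl) (gc (g5 ok1351 ov1351 rfl) 
  (gc (g5 ok1352 ov1352 rfl) (gc (g5 ok1353 ov1353 rfl) (gc (g5 ok1354 ov1354 rfl) (gc (g5 ok1355 ov1355 rfl) 
  (gc (g5 ok1356 ov1356 rfl) (gc (g5 ok1357 ov1357 rfl) (gc (g5 ok1358 ov1358 rfl) (gc (g5 ok1359 ov1359 rfl) 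
  gn))))))))))))))))

theorem okB85 : ∀ Q ∈ B85, Gd Q :=
  (gc (g5 ok1360 ov1360 rfl) (gc (g5 ok1361 ov1361 rfl) (gc (g5 ok1362 ov1362 rfl) (gc (g5 ok1363 ov1363 rfl) 
  (gc (g5 ok1364 ov1364 rfl) (gc (g5 ok1365 ov1365 rfl) (gc (g5 ok1366 ov1366 rfl) (gc (g5 ok1367 ov1367 rfl) 
  (gc (g5 ok1368 ov1368 rfl) (gc (g5 ok1369 ov1369 rfl) (gc (g5 ok1370 ov1370 rfl) (gc (g5 ok1371 ov1371 rfl) 
  (gc (g5 ok1372 ov1372 rfl) (gc (g5 ok1373 ov1373 rfl) (gc (g5 ok1374 ov1374 rfl) (gc (g5 ok1375 ov1375 rfl) 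
  gn))))))))))))))))

theorem okB86 : ∀ Q ∈ B86, Gd Q :=
  (gc (g5 ok1376 ov1376 rfl) (gc (g5 ok1377 ov1377 rfl) (gc (g5 ok1378 ov1378 rfl) (gc (g5 ok1379 ov1379 rfl) 
  (gc (g5 ok1380 ov1380 rfl) (gc (g5 ok1381 ov1381 rfl) (gc (g5 ok1382 ov1382 rfl) (gc (g5 ok1383 ov1383 rfl) 
  (gc (g5 ok1384 ov1384 rfl) (gc (g5 ok1385 ov1385 rfl) (gc (g5 ok1386 ov1386 rfl) (gc (g5 ok1387 ov1387 rfl) 
  (gc (g5 ok1388 ov1388 rfl) (gc (g5 ok1389 ov1389 rfl) (gc (g5 ok1390 ov1390 rfl) (gc (g5 ok1391 ov1391 rfl) 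
  gn))))))))))))))))

theorem okB87 : ∀ Q ∈ B87, Gd Q :=
  (gc (g5 ok1392 ov1392 rfl) (gc (g5 ok1393 ov1393 rfl) (gc (g5 ok1394 ov1394 rfl) (gc (g5 ok1395 ov1395 rfl) 
  (gc (g5 ok1396 ov1396 rfl) (gc (g5 ok1397 ov1397 rfl) (gc (g5 ok1398 ov1398 rfl) (gc (g5 ok1399 ov1399 rfl) 
  (gc (g5 ok1400 ov1400 rfl) (gc (g5 ok1401 ov1401 rfl) (gc (g5 ok1402 ov1402 rfl) (gc (g5 ok1403 ov1403 rfl) 
  (gc (g5 ok1404 ov1404 rfl) (gc (g5 ok1405 ov1405 rfl) (gc (g5 ok1406 ov1406 rfl) (gc (g5 ok1407 ov1407 rfl) 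
  gn))))))))))))))))

theorem okB88 : ∀ Q ∈ B88, Gd Q :=
  (gc (g5 ok1408 ov1408 rfl) (gc (g5 ok1409 ov1409 rfl) (gc (g5 ok1410 ov1410 rfl) (gc (g5 ok1411 ov1411 rfl) 
  (gc (g5 ok1412 ov1412 rfl) (gc (g5 ok1413 ov1413 rfl) (gc (g5 ok1414 ov1414 rfl) (gc (g5 ok1415 ov1415 rfl) 
  (gc (g5 ok1416 ov1416 rfl) (gc (g5 ok1417 ov1417 rfl) (gc (g5 ok1418 ov1418 rfl) (gc (g5 ok1419 ov1419 rfl) 
  (gc (g5 ok1420 ov1420 rfl) (gc (g5 ok1421 ov1421 rfl) (gc (g5 ok1422 ov1422 rfl) (gc (g5 ok1423 ov1423 rfl) 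
  gn))))))))))))))))

theorem okB89 : ∀ Q ∈ B89, Gd Q :=
  (gc (g5 ok1424 ov1424 rfl) (gc (g5 ok1425 ov1425 rfl) (gc (g5 ok1426 ov1426 rfl) (gc (g5 ok1427 ov1427 rfl) 
  (gc (g5 ok1428 ov1428 rfl) (gc (g5 ok1429 ov1429 rfl) (gc (g5 ok1430 ov1430 rfl) (gc (g5 ok1431 ov1431 rfl) 
  (gc (g5 ok1432 ov1432 rfl) (gc (g5 ok1433 ov1433 rfl) (gc (g5 ok1434 ov1434 rfl) (gc (g5 ok1435 ov1435 rfl) 
  (gc (g5 ok1436 ov1436 rfl) (gc (g5 ok1437 ov1437 rfl) (gc (g5 ok1438 ov1438 rfl) (gc (g5 ok1439 ov1439 rfl) 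
  gn))))))))))))))))

theorem okB90 : ∀ Q ∈ B90, Gd Q :=
  (gc (g5 ok1440 ov1440 rfl) (gc (g5 ok1441 ov1441 rfl) (gc (g5 ok1442 ov1442 rfl) (gc (g5 ok1443 ov1443 rfl) 
  (gc (g5 ok1444 ov1444 rfl) (gc (g5 ok1445 ov1445 rfl) (gc (g5 ok1446 ov1446 rfl) (gc (g5 ok1447 ov1447 rfl) 
  (gc (g5 ok1448 ov1448 rfl) (gc (g5 ok1449 ov1449 rfl) (gc (g5 ok1450 ov1450 rfl) (gc (g5 ok1451 ov1451 rfl) 
  (gc (g5 ok1452 ov1452 rfl) (gc (g5 ok1453 ov1453 rfl) (gc (g5 ok1454 ov1454 rfl) (gc (g5 ok1455 ov1455 rfl) 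
  gn))))))))))))))))

theorem okB91 : ∀ Q ∈ B91, Gd Q :=
  (gc (g5 ok1456 ov1456 rfl) (gc (g5 ok1457 ov1457 rfl) (gc (g5 ok1458 ov1458 rfl) (gc (g5 ok1459 ov1459 rfl) 
  (gc (g5 ok1460 ov1460 rfl) (gc (g5 ok1461 ov1461 rfl) (gc (g5 ok1462 ov1462 rfl) (gc (g5 ok1463 ov1463 rfl) 
  (gc (g5 ok1464 ov1464 rfl) (gc (g5 ok1465 ov1465 rfl) (gc (g5 ok1466 ov1466 rfl) (gc (g5 ok1467 ov1467 rfl) 
  (gc (g5 ok1468 ov1468 rfl) (gc (g5 ok1469 ov1469 rfl) (gc (g5 ok1470 ov1470 rfl) (gc (g5 ok1471 ov1471 rfl) 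
  gn))))))))))))))))

theorem okB92 : ∀ Q ∈ B92, Gd Q :=
  (gc (g5 ok1472 ov1472 rfl) (gc (g5 ok1473 ov1473 rfl) (gc (g5 ok1474 ov1474 rfl) (gc (g5 ok1475 ov1475 rfl) 
  (gc (g5 ok1476 ov1476 rfl) (gc (g5 ok1477 ov1477 rfl) (gc (g5 ok1478 ov1478 rfl) (gc (g5 ok1479 ov1479 rfl) 
  (gc (g5 ok1480 ov1480 rfl) (gc (g5 ok1481 ov1481 rfl) (gc (g5 ok1482 ov1482 rfl) (gc (g5 ok1483 ov1483 rfl) 
  (gc (g5 ok1484 ov1484 rfl) (gc (g5 ok1485 ov1485 rfl) (gc (g5 ok1486 ov1486 rfl) (gc (g5 ok1487 ov1487 rfl) 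
  gn))))))))))))))))

theorem okB93 : ∀ Q ∈ B93, Gd Q :=
  (gc (g5 ok1488 ov1488 rfl) (gc (g5 ok1489 ov1489 rfl) (gc (g5 ok1490 ov1490 rfl) (gc (g5 ok1491 ov1491 rfl) 
  (gc (g5 ok1492 ov1492 rfl) (gc (g5 ok1493 ov1493 rfl) (gc (g5 ok1494 ov1494 rfl) (gc (g5 ok1495 ov1495 rfl) 
  (gc (g5 ok1496 ov1496 rfl) (gc (g5 ok1497 ov1497 rfl) (gc (g5 ok1498 ov1498 rfl) (gc (g5 ok1499 ov1499 rfl) 
  (gc (g5 ok1500 ov1500 rfl) (gc (g5 ok1501 ov1501 rfl) (gc (g5 ok1502 ov1502 rfl) (gc (g5 ok1503 ov1503 rfl) 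
  gn))))))))))))))))

theorem okB94 : ∀ Q ∈ B94, Gd Q :=
  (gc (g5 ok1504 ov1504 rfl) (gc (g5 ok1505 ov1505 rfl) (gc (g5 ok1506 ov1506 rfl) (gc (g5 ok1507 ov1507 rfl) 
  (gc (g5 ok1508 ov1508 rfl) (gc (g5 ok1509 ov1509 rfl) (gc (g5 ok1510 ov1510 rfl) (gc (g5 ok1511 ov1511 rfl) 
  (gc (g5 ok1512 ov1512 rfl) (gc (g5 ok1513 ov1513 rfl) (gc (g5 ok1514 ov1514 rfl) (gc (g5 ok1515 ov1515 rfl) 
  (gc (g5 ok1516 ov1516 rfl) (gc (g5 ok1517 ov1517 rfl) (gc (g5 ok1518 ov1518 rfl) (gc (g5 ok1519 ov1519 rfl) 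
  gn))))))))))))))))

theorem okB95 : ∀ Q ∈ B95, Gd Q :=
  (gc (g5 ok1520 ov1520 rfl) (gc (g5 ok1521 ov1521 rfl) (gc (g5 ok1522 ov1522 rfl) (gc (g5 ok1523 ov1523 rfl) 
  (gc (g5 ok1524 ov1524 rfl) (gc (g5 ok1525 ov1525 rfl) (gc (g5 ok1526 ov1526 rfl) (gc (g5 ok1527 ov1527 rfl) 
  (gc (g5 ok1528 ov1528 rfl) (gc (g5 ok1529 ov1529 rfl) (gc (g5 ok1530 ov1530 rfl) (gc (g5 ok1531 ov1531 rfl) 
  (gc (g5 ok1532 ov1532 rfl) (gc (g5 ok1533 ov1533 rfl) (gc (g5 ok1534 ov1534 rfl) (gc (g5 ok1535 ov1535 rfl) 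
  gn))))))))))))))))

theorem okB96 : ∀ Q ∈ B96, Gd Q :=
  (gc (g5 ok1536 ov1536 rfl) (gc (g5 ok1537 ov1537 rfl) (gc (g5 ok1538 ov1538 rfl) (gc (g5 ok1539 ov1539 rfl) 
  (gc (g5 ok1540 ov1540 rfl) (gc (g5 ok1541 ov1541 rfl) (gc (g5 ok1542 ov1542 rfl) (gc (g5 ok1543 ov1543 rfl) 
  (gc (g5 ok1544 ov1544 rfl) (gc (g5 ok1545 ov1545 rfl) (gc (g5 ok1546 ov1546 rfl) (gc (g5 ok1547 ov1547 rfl) 
  (gc (g5 ok1548 ov1548 rfl) (gc (g5 ok1549 ov1549 rfl) (gc (g5 ok1550 ov1550 rfl) (gc (g5 ok1551 ov1551 rfl) 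
  gn))))))))))))))))

theorem okB97 : ∀ Q ∈ B97, Gd Q :=
  (gc (g5 ok1552 ov1552 rfl) (gc (g5 ok1553 ov1553 rfl) (gc (g5 ok1554 ov1554 rfl) (gc (g5 ok1555 ov1555 rfl) 
  (gc (g5 ok1556 ov1556 rfl) (gc (g5 ok1557 ov1557 rfl) (gc (g5 ok1558 ov1558 rfl) (gc (g5 ok1559 ov1559 rfl) 
  (gc (g5 ok1560 ov1560 rfl) (gc (g5 ok1561 ov1561 rfl) (gc (g5 ok1562 ov1562 rfl) (gc (g5 ok1563 ov1563 rfl) 
  (gc (g5 ok1564 ov1564 rfl) (gc (g5 ok1565 ov1565 rfl) (gc (g5 ok1566 ov1566 rfl) (gc (g5 ok1567 ov1567 rfl) 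
  gn))))))))))))))))

theorem okB98 : ∀ Q ∈ B98, Gd Q :=
  (gc (g5 ok1568 ov1568 rfl) (gc (g5 ok1569 ov1569 rfl) (gc (g5 ok1570 ov1570 rfl) (gc (g5 ok1571 ov1571 rfl) 
  (gc (g5 ok1572 ov1572 rfl) (gc (g5 ok1573 ov1573 rfl) (gc (g5 ok1574 ov1574 rfl) (gc (g5 ok1575 ov1575 rfl) 
  (gc (g5 ok1576 ov1576 rfl) (gc (g5 ok1577 ov1577 rfl) (gc (g5 ok1578 ov1578 rfl) (gc (g5 ok1579 ov1579 rfl) 
  (gc (g5 ok1580 ov1580 rfl) (gc (g5 ok1581 ov1581 rfl) (gc (g5 ok1582 ov1582 rfl) (gc (g5 ok1583 ov1583 rfl) 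
  gn))))))))))))))))

theorem okB99 : ∀ Q ∈ B99, Gd Q :=
  (gc (g5 ok1584 ov1584 rfl) (gc (g5 ok1585 ov1585 rfl) (gc (g5 ok1586 ov1586 rfl) (gc (g5 ok1587 ov1587 rfl) 
  (gc (g5 ok1588 ov1588 rfl) (gc (g5 ok1589 ov1589 rfl) (gc (g5 ok1590 ov1590 rfl) (gc (g5 ok1591 ov1591 rfl) 
  (gc (g5 ok1592 ov1592 rfl) (gc (g5 ok1593 ov1593 rfl) (gc (g5 ok1594 ov1594 rfl) (gc (g5 ok1595 ov1595 rfl) 
  (gc (g5 ok1596 ov1596 rfl) (gc (g5 ok1597 ov1597 rfl) (gc (g5 ok1598 ov1598 rfl) (gc (g5 ok1599 ov1599 rfl) 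
  gn))))))))))))))))

theorem okB100 : ∀ Q ∈ B100, Gd Q :=
  (gc (g5 ok1600 ov1600 rfl) (gc (g5 ok1601 ov1601 rfl) (gc (g5 ok1602 ov1602 rfl) (gc (g5 ok1603 ov1603 rfl) 
  (gc (g5 ok1604 ov1604 rfl) (gc (g5 ok1605 ov1605 rfl) (gc (g5 ok1606 ov1606 rfl) (gc (g5 ok1607 ov1607 rfl) 
  (gc (g5 ok1608 ov1608 rfl) (gc (g5 ok1609 ov1609 rfl) (gc (g5 ok1610 ov1610 rfl) (gc (g5 ok1611 ov1611 rfl) 
  (gc (g5 ok1612 ov1612 rfl) (gc (g5 ok1613 ov1613 rfl) (gc (g5 ok1614 ov1614 rfl) (gc (g5 ok1615 ov1615 rfl) 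
  gn))))))))))))))))

theorem okB101 : ∀ Q ∈ B101, Gd Q :=
  (gc (g5 ok1616 ov1616 rfl) (gc (g5 ok1617 ov1617 rfl) (gc (g5 ok1618 ov1618 rfl) (gc (g5 ok1619 ov1619 rfl) 
  (gc (g5 ok1620 ov1620 rfl) (gc (g5 ok1621 ov1621 rfl) (gc (g5 ok1622 ov1622 rfl) (gc (g5 ok1623 ov1623 rfl) 
  (gc (g5 ok1624 ov1624 rfl) (gc (g5 ok1625 ov1625 rfl) (gc (g5 ok1626 ov1626 rfl) (gc (g5 ok1627 ov1627 rfl) 
  (gc (g5 ok1628 ov1628 rfl) (gc (g5 ok1629 ov1629 rfl) (gc (g5 ok1630 ov1630 rfl) (gc (g5 ok1631 ov1631 rfl) 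
  gn))))))))))))))))

theorem okB102 : ∀ Q ∈ B102, Gd Q :=
  (gc (g5 ok1632 ov1632 rfl) (gc (g5 ok1633 ov1633 rfl) (gc (g5 ok1634 ov1634 rfl) (gc (g5 ok1635 ov1635 rfl) 
  (gc (g5 ok1636 ov1636 rfl) (gc (g5 ok1637 ov1637 rfl) (gc (g5 ok1638 ov1638 rfl) (gc (g5 ok1639 ov1639 rfl) 
  (gc (g5 ok1640 ov1640 rfl) (gc (g5 ok1641 ov1641 rfl) (gc (g5 ok1642 ov1642 rfl) (gc (g5 ok1643 ov1643 rfl) 
  (gc (g5 ok1644 ov1644 rfl) (gc (g5 ok1645 ov1645 rfl) (gc (g5 ok1646 ov1646 rfl) (gc (g5 ok1647 ov1647 rfl) 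
  gn))))))))))))))))

theorem okB103 : ∀ Q ∈ B103, Gd Q :=
  (gc (g5 ok1648 ov1648 rfl) (gc (g5 ok1649 ov1649 rfl) (gc (g5 ok1650 ov1650 rfl) (gc (g5 ok1651 ov1651 rfl) 
  (gc (g5 ok1652 ov1652 rfl) (gc (g5 ok1653 ov1653 rfl) (gc (g5 ok1654 ov1654 rfl) (gc (g5 ok1655 ov1655 rfl) 
  (gc (g5 ok1656 ov1656 rfl) (gc (g5 ok1657 ov1657 rfl) (gc (g5 ok1658 ov1658 rfl) (gc (g5 ok1659 ov1659 rfl) 
  (gc (g5 ok1660 ov1660 rfl) (gc (g5 ok1661 ov1661 rfl) (gc (g5 ok1662 ov1662 rfl) (gc (g5 ok1663 ov1663 rfl) 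
  gn))))))))))))))))

theorem okB104 : ∀ Q ∈ B104, Gd Q :=
  (gc (g5 ok1664 ov1664 rfl) (gc (g5 ok1665 ov1665 rfl) (gc (g5 ok1666 ov1666 rfl) (gc (g5 ok1667 ov1667 rfl) 
  (gc (g5 ok1668 ov1668 rfl) (gc (g5 ok1669 ov1669 rfl) (gc (g5 ok1670 ov1670 rfl) (gc (g5 ok1671 ov1671 rfl) 
  (gc (g5 ok1672 ov1672 rfl) (gc (g5 ok1673 ov1673 rfl) (gc (g5 ok1674 ov1674 rfl) (gc (g5 ok1675 ov1675 rfl) 
  (gc (g5 ok1676 ov1676 rfl) (gc (g5 ok1677 ov1677 rfl) (gc (g5 ok1678 ov1678 rfl) (gc (g5 ok1679 ov1679 rfl) 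
  gn))))))))))))))))

theorem okB105 : ∀ Q ∈ B105, Gd Q :=
  (gc (g5 ok1680 ov1680 rfl) (gc (g5 ok1681 ov1681 rfl) (gc (g5 ok1682 ov1682 rfl) (gc (g5 ok1683 ov1683 rfl) 
  (gc (g5 ok1684 ov1684 rfl) (gc (g5 ok1685 ov1685 rfl) (gc (g5 ok1686 ov1686 rfl) (gc (g5 ok1687 ov1687 rfl) 
  (gc (g5 ok1688 ov1688 rfl) (gc (g5 ok1689 ov1689 rfl) (gc (g5 ok1690 ov1690 rfl) (gc (g5 ok1691 ov1691 rfl) 
  (gc (g5 ok1692 ov1692 rfl) (gc (g5 ok1693 ov1693 rfl) (gc (g5 ok1694 ov1694 rfl) (gc (g5 ok1695 ov1695 rfl) 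
  gn))))))))))))))))

theorem okB106 : ∀ Q ∈ B106, Gd Q :=
  (gc (g5 ok1696 ov1696 rfl) (gc (g5 ok1697 ov1697 rfl) (gc (g5 ok1698 ov1698 rfl) (gc (g5 ok1699 ov1699 rfl) 
  (gc (g5 ok1700 ov1700 rfl) (gc (g5 ok1701 ov1701 rfl) (gc (g5 ok1702 ov1702 rfl) (gc (g5 ok1703 ov1703 rfl) 
  (gc (g5 ok1704 ov1704 rfl) (gc (g5 ok1705 ov1705 rfl) (gc (g5 ok1706 ov1706 rfl) (gc (g5 ok1707 ov1707 rfl) 
  (gc (g5 ok1708 ov1708 rfl) (gc (g5 ok1709 ov1709 rfl) (gc (g5 ok1710 ov1710 rfl) (gc (g5 ok1711 ov1711 rfl) 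
  gn))))))))))))))))

theorem okB107 : ∀ Q ∈ B107, Gd Q :=
  (gc (g5 ok1712 ov1712 rfl) (gc (g5 ok1713 ov1713 rfl) (gc (g5 ok1714 ov1714 rfl) (gc (g5 ok1715 ov1715 rfl) 
  (gc (g5 ok1716 ov1716 rfl) (gc (g5 ok1717 ov1717 rfl) (gc (g5 ok1718 ov1718 rfl) (gc (g5 ok1719 ov1719 rfl) 
  (gc (g5 ok1720 ov1720 rfl) (gc (g5 ok1721 ov1721 rfl) (gc (g5 ok1722 ov1722 rfl) (gc (g5 ok1723 ov1723 rfl) 
  (gc (g5 ok1724 ov1724 rfl) (gc (g5 ok1725 ov1725 rfl) (gc (g5 ok1726 ov1726 rfl) (gc (g5 ok1727 ov1727 rfl) 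
  gn))))))))))))))))

theorem okB108 : ∀ Q ∈ B108, Gd Q :=
  (gc (g5 ok1728 ov1728 rfl) (gc (g5 ok1729 ov1729 rfl) (gc (g5 ok1730 ov1730 rfl) (gc (g5 ok1731 ov1731 rfl) 
  (gc (g5 ok1732 ov1732 rfl) (gc (g5 ok1733 ov1733 rfl) (gc (g5 ok1734 ov1734 rfl) (gc (g5 ok1735 ov1735 rfl) 
  (gc (g5 ok1736 ov1736 rfl) (gc (g5 ok1737 ov1737 rfl) (gc (g5 ok1738 ov1738 rfl) (gc (g5 ok1739 ov1739 rfl) 
  (gc (g5 ok1740 ov1740 rfl) (gc (g5 ok1741 ov1741 rfl) (gc (g5 ok1742 ov1742 rfl) (gc (g5 ok1743 ov1743 rfl) 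
  gn))))))))))))))))

theorem okB109 : ∀ Q ∈ B109, Gd Q :=
  (gc (g5 ok1744 ov1744 rfl) (gc (g5 ok1745 ov1745 rfl) (gc (g5 ok1746 ov1746 rfl) (gc (g5 ok1747 ov1747 rfl) 
  (gc (g5 ok1748 ov1748 rfl) (gc (g5 ok1749 ov1749 rfl) (gc (g5 ok1750 ov1750 rfl) (gc (g5 ok1751 ov1751 rfl) 
  (gc (g5 ok1752 ov1752 rfl) (gc (g5 ok1753 ov1753 rfl) (gc (g5 ok1754 ov1754 rfl) (gc (g5 ok1755 ov1755 rfl) 
  (gc (g5 ok1756 ov1756 rfl) (gc (g5 ok1757 ov1757 rfl) (gc (g5 ok1758 ov1758 rfl) (gc (g5 ok1759 ov1759 rfl) 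
  gn))))))))))))))))

theorem okB110 : ∀ Q ∈ B110, Gd Q :=
  (gc (g5 ok1760 ov1760 rfl) (gc (g5 ok1761 ov1761 rfl) (gc (g5 ok1762 ov1762 rfl) (gc (g5 ok1763 ov1763 rfl) 
  (gc (g5 ok1764 ov1764 rfl) (gc (g5 ok1765 ov1765 rfl) (gc (g5 ok1766 ov1766 rfl) (gc (g5 ok1767 ov1767 rfl) 
  (gc (g5 ok1768 ov1768 rfl) (gc (g5 ok1769 ov1769 rfl) (gc (g5 ok1770 ov1770 rfl) (gc (g5 ok1771 ov1771 rfl) 
  (gc (g5 ok1772 ov1772 rfl) (gc (g5 ok1773 ov1773 rfl) (gc (g5 ok1774 ov1774 rfl) (gc (g5 ok1775 ov1775 rfl) 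
  gn))))))))))))))))

theorem okB111 : ∀ Q ∈ B111, Gd Q :=
  (gc (g5 ok1776 ov1776 rfl) (gc (g5 ok1777 ov1777 rfl) (gc (g5 ok1778 ov1778 rfl) (gc (g5 ok1779 ov1779 rfl) 
  (gc (g5 ok1780 ov1780 rfl) (gc (g5 ok1781 ov1781 rfl) (gc (g5 ok1782 ov1782 rfl) (gc (g5 ok1783 ov1783 rfl) 
  (gc (g5 ok1784 ov1784 rfl) (gc (g5 ok1785 ov1785 rfl) (gc (g5 ok1786 ov1786 rfl) (gc (g5 ok1787 ov1787 rfl) 
  (gc (g5 ok1788 ov1788 rfl) (gc (g5 ok1789 ov1789 rfl) (gc (g5 ok1790 ov1790 rfl) (gc (g5 ok1791 ov1791 rfl) 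
  gn))))))))))))))))

theorem okB112 : ∀ Q ∈ B112, Gd Q :=
  (gc (g5 ok1792 ov1792 rfl) (gc (g5 ok1793 ov1793 rfl) (gc (g5 ok1794 ov1794 rfl) (gc (g5 ok1795 ov1795 rfl) 
  (gc (g5 ok1796 ov1796 rfl) (gc (g5 ok1797 ov1797 rfl) (gc (g5 ok1798 ov1798 rfl) (gc (g5 ok1799 ov1799 rfl) 
  (gc (g5 ok1800 ov1800 rfl) (gc (g5 ok1801 ov1801 rfl) (gc (g5 ok1802 ov1802 rfl) (gc (g5 ok1803 ov1803 rfl) 
  (gc (g5 ok1804 ov1804 rfl) (gc (g5 ok1805 ov1805 rfl) (gc (g5 ok1806 ov1806 rfl) (gc (g5 ok1807 ov1807 rfl) 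
  gn))))))))))))))))

theorem okB113 : ∀ Q ∈ B113, Gd Q :=
  (gc (g5 ok1808 ov1808 rfl) (gc (g5 ok1809 ov1809 rfl) (gc (g5 ok1810 ov1810 rfl) (gc (g5 ok1811 ov1811 rfl) 
  (gc (g5 ok1812 ov1812 rfl) (gc (g5 ok1813 ov1813 rfl) (gc (g5 ok1814 ov1814 rfl) (gc (g5 ok1815 ov1815 rfl) 
  (gc (g5 ok1816 ov1816 rfl) (gc (g5 ok1817 ov1817 rfl) (gc (g5 ok1818 ov1818 rfl) (gc (g5 ok1819 ov1819 rfl) 
  (gc (g5 ok1820 ov1820 rfl) (gc (g5 ok1821 ov1821 rfl) (gc (g5 ok1822 ov1822 rfl) (gc (g5 ok1823 ov1823 rfl) 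
  gn))))))))))))))))

theorem okB114 : ∀ Q ∈ B114, Gd Q :=
  (gc (g5 ok1824 ov1824 rfl) (gc (g5 ok1825 ov1825 rfl) (gc (g5 ok1826 ov1826 rfl) (gc (g5 ok1827 ov1827 rfl) 
  (gc (g5 ok1828 ov1828 rfl) (gc (g5 ok1829 ov1829 rfl) (gc (g5 ok1830 ov1830 rfl) (gc (g5 ok1831 ov1831 rfl) 
  (gc (g5 ok1832 ov1832 rfl) (gc (g5 ok1833 ov1833 rfl) (gc (g5 ok1834 ov1834 rfl) (gc (g5 ok1835 ov1835 rfl) 
  (gc (g5 ok1836 ov1836 rfl) (gc (g5 ok1837 ov1837 rfl) (gc (g5 ok1838 ov1838 rfl) (gc (g5 ok1839 ov1839 rfl) 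
  gn))))))))))))))))

theorem okB115 : ∀ Q ∈ B115, Gd Q :=
  (gc (g5 ok1840 ov1840 rfl) (gc (g5 ok1841 ov1841 rfl) (gc (g5 ok1842 ov1842 rfl) (gc (g5 ok1843 ov1843 rfl) 
  (gc (g5 ok1844 ov1844 rfl) (gc (g5 ok1845 ov1845 rfl) (gc (g5 ok1846 ov1846 rfl) (gc (g5 ok1847 ov1847 rfl) 
  (gc (g5 ok1848 ov1848 rfl) (gc (g5 ok1849 ov1849 rfl) (gc (g5 ok1850 ov1850 rfl) (gc (g5 ok1851 ov1851 rfl) 
  (gc (g5 ok1852 ov1852 rfl) (gc (g5 ok1853 ov1853 rfl) (gc (g5 ok1854 ov1854 rfl) (gc (g5 ok1855 ov1855 rfl) 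
  gn))))))))))))))))

theorem okB116 : ∀ Q ∈ B116, Gd Q :=
  (gc (g5 ok1856 ov1856 rfl) (gc (g5 ok1857 ov1857 rfl) (gc (g5 ok1858 ov1858 rfl) (gc (g5 ok1859 ov1859 rfl) 
  (gc (g5 ok1860 ov1860 rfl) (gc (g5 ok1861 ov1861 rfl) (gc (g5 ok1862 ov1862 rfl) (gc (g5 ok1863 ov1863 rfl) 
  (gc (g5 ok1864 ov1864 rfl) (gc (g5 ok1865 ov1865 rfl) (gc (g5 ok1866 ov1866 rfl) (gc (g5 ok1867 ov1867 rfl) 
  (gc (g5 ok1868 ov1868 rfl) (gc (g5 ok1869 ov1869 rfl) (gc (g5 ok1870 ov1870 rfl) (gc (g5 ok1871 ov1871 rfl) 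
  gn))))))))))))))))

theorem okB117 : ∀ Q ∈ B117, Gd Q :=
  (gc (g5 ok1872 ov1872 rfl) (gc (g5 ok1873 ov1873 rfl) (gc (g5 ok1874 ov1874 rfl) (gc (g5 ok1875 ov1875 rfl) 
  (gc (g5 ok1876 ov1876 rfl) (gc (g5 ok1877 ov1877 rfl) (gc (g5 ok1878 ov1878 rfl) (gc (g5 ok1879 ov1879 rfl) 
  (gc (g5 ok1880 ov1880 rfl) (gc (g5 ok1881 ov1881 rfl) (gc (g5 ok1882 ov1882 rfl) (gc (g5 ok1883 ov1883 rfl) 
  (gc (g5 ok1884 ov1884 rfl) (gc (g5 ok1885 ov1885 rfl) (gc (g5 ok1886 ov1886 rfl) (gc (g5 ok1887 ov1887 rfl) 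
  gn))))))))))))))))

theorem okB118 : ∀ Q ∈ B118, Gd Q :=
  (gc (g5 ok1888 ov1888 rfl) (gc (g5 ok1889 ov1889 rfl) (gc (g5 ok1890 ov1890 rfl) (gc (g5 ok1891 ov1891 rfl) 
  (gc (g5 ok1892 ov1892 rfl) (gc (g5 ok1893 ov1893 rfl) (gc (g5 ok1894 ov1894 rfl) (gc (g5 ok1895 ov1895 rfl) 
  (gc (g5 ok1896 ov1896 rfl) (gc (g5 ok1897 ov1897 rfl) (gc (g5 ok1898 ov1898 rfl) (gc (g5 ok1899 ov1899 rfl) 
  (gc (g5 ok1900 ov1900 rfl) (gc (g5 ok1901 ov1901 rfl) (gc (g5 ok1902 ov1902 rfl) (gc (g5 ok1903 ov1903 rfl) 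
  gn))))))))))))))))

theorem okB119 : ∀ Q ∈ B119, Gd Q :=
  (gc (g5 ok1904 ov1904 rfl) (gc (g5 ok1905 ov1905 rfl) (gc (g5 ok1906 ov1906 rfl) (gc (g5 ok1907 ov1907 rfl) 
  (gc (g5 ok1908 ov1908 rfl) (gc (g5 ok1909 ov1909 rfl) (gc (g5 ok1910 ov1910 rfl) (gc (g5 ok1911 ov1911 rfl) 
  (gc (g5 ok1912 ov1912 rfl) (gc (g5 ok1913 ov1913 rfl) (gc (g5 ok1914 ov1914 rfl) (gc (g5 ok1915 ov1915 rfl) 
  (gc (g5 ok1916 ov1916 rfl) (gc (g5 ok1917 ov1917 rfl) (gc (g5 ok1918 ov1918 rfl) (gc (g5 ok1919 ov1919 rfl) 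
  gn))))))))))))))))

theorem okB120 : ∀ Q ∈ B120, Gd Q :=
  (gc (g5 ok1920 ov1920 rfl) (gc (g5 ok1921 ov1921 rfl) (gc (g5 ok1922 ov1922 rfl) (gc (g5 ok1923 ov1923 rfl) 
  (gc (g5 ok1924 ov1924 rfl) (gc (g5 ok1925 ov1925 rfl) (gc (g5 ok1926 ov1926 rfl) (gc (g5 ok1927 ov1927 rfl) 
  (gc (g5 ok1928 ov1928 rfl) (gc (g5 ok1929 ov1929 rfl) (gc (g5 ok1930 ov1930 rfl) (gc (g5 ok1931 ov1931 rfl) 
  (gc (g5 ok1932 ov1932 rfl) (gc (g5 ok1933 ov1933 rfl) (gc (g5 ok1934 ov1934 rfl) (gc (g5 ok1935 ov1935 rfl) 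
  gn))))))))))))))))

theorem okB121 : ∀ Q ∈ B121, Gd Q :=
  (gc (g5 ok1936 ov1936 rfl) (gc (g5 ok1937 ov1937 rfl) (gc (g0 ok1938 rfl rfl) gn)))

theorem okC0 : ∀ B ∈ BC0, ∀ Q ∈ B, Gd Q := by
  intro B hB
  simp only [BC0, List.mem_cons, List.not_mem_nil, or_false] at hB
  rcases hB with h | h | h | h | h | h | h | h | h | h | h | h | h | h | h | h
  · subst h; exact okB0
  · subst h; exact okB1
  · subst h; exact okB2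
  · subst h; exact okB3
  · subst h; exact okB4
  · subst h; exact okB5
  · subst h; exact okB6
  · subst h; exact okB7
  · subst h; exact okB8
  · subst h; exact okB9
  · subst h; exact okB10
  · subst h; exact okB11
  · subst h; exact okB12
  · subst h; exact okB13
  · subst h; exact okB14
  · subst h; exact okB15

theorem okC1 : ∀ B ∈ BC1, ∀ Q ∈ B, Gd Q := by
  intro B hB
  simp only [BC1, List.mem_cons, List.not_mem_nil, or_false] at hB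
  rcases hB with h | h | h | h | h | h | h | h | h | h | h | h | h | h | h | h
  · subst h; exact okB16
  · subst h; exact okB17
  · subst h; exact okB18
  · subst h; exact okB19
  · subst h; exact okB20
  · subst h; exact okB21
  · subst h; exact okB22
  · subst h; exact okB23
  · subst h; exact okB24
  · subst h; exact okB25
  · subst h; exact okB26
  · subst h; exact okB27
  · subst h; exact okB28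
  · subst h; exact okB29
  · subst h; exact okB30
  · subst h; exact okB31

theorem okC2 : ∀ B ∈ BC2, ∀ Q ∈ B, Gd Q := by
  intro B hB
  simp only [BC2, List.mem_cons, List.not_mem_nil, or_false] at hB
  rcases hB with h | h | h | h | h | h | h | h | h | h | h | h | h | h | h | h
  · subst h; exact okB32
  · subst h; exact okB33
  · subst h; exact okB34
  · subst h; exact okB35
  · subst h; exact okB36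
  · subst h; exact okB37
  · subst h; exact okB38
  · subst h; exact okB39
  · subst h; exact okB40
  · subst h; exact okB41
  · subst h; exact okB42
  · subst h; exact okB43
  · subst h; exact okB44
  · subst h; exact okB45
  · subst h; exact okB46
  · subst h; exact okB47

theorem okC3 : ∀ B ∈ BC3, ∀ Q ∈ B, Gd Q := by
  intro B hB
  simp only [BC3, List.mem_cons, List.not_mem_nil, or_false] at hB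
  rcases hB with h | h | h | h | h | h | h | h | h | h | h | h | h | h | h | h
  · subst h; exact okB48
  · subst h; exact okB49
  · subst h; exact okB50
  · subst h; exact okB51
  · subst h; exact okB52
  · subst h; exact okB53
  · subst h; exact okB54
  · subst h; exact okB55
  · subst h; exact okB56
  · subst h; exact okB57
  · subst h; exact okB58
  · subst h; exact okB59
  · subst h; exact okB60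
  · subst h; exact okB61
  · subst h; exact okB62
  · subst h; exact okB63

theorem okC4 : ∀ B ∈ BC4, ∀ Q ∈ B, Gd Q := by
  intro B hB
  simp only [BC4, List.mem_cons, List.not_mem_nil, or_false] at hB
  rcases hB with h | h | h | h | h | h | h | h | h | h | h | h | h | h | h | h
  · subst h; exact okB64
  · subst h; exact okB65
  · subst h; exact okB66
  · subst h; exact okB67
  · subst h; exact okB68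
  · subst h; exact okB69
  · subst h; exact okB70
  · subst h; exact okB71
  · subst h; exact okB72
  · subst h; exact okB73
  · subst h; exact okB74
  · subst h; exact okB75
  · subst h; exact okB76
  · subst h; exact okB77
  · subst h; exact okB78
  · subst h; exact okB79

theorem okC5 : ∀ B ∈ BC5, ∀ Q ∈ B, Gd Q := by
  intro B hB
  simp only [BC5, List.mem_cons, List.not_mem_nil, or_false] at hB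
  rcases hB with h | h | h | h | h | h | h | h | h | h | h | h | h | h | h | h
  · subst h; exact okB80
  · subst h; exact okB81
  · subst h; exact okB82
  · subst h; exact okB83
  · subst h; exact okB84
  · subst h; exact okB85
  · subst h; exact okB86
  · subst h; exact okB87
  · subst h; exact okB88
  · subst h; exact okB89
  · subst h; exact okB90
  · subst h; exact okB91
  · subst h; exact okB92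
  · subst h; exact okB93
  · subst h; exact okB94
  · subst h; exact okB95

theorem okC6 : ∀ B ∈ BC6, ∀ Q ∈ B, Gd Q := by
  intro B hB
  simp only [BC6, List.mem_cons, List.not_mem_nil, or_false] at hB
  rcases hB with h | h | h | h | h | h | h | h | h | h | h | h | h | h | h | h
  · subst h; exact okB96
  · subst h; exact okB97
  · subst h; exact okB98
  · subst h; exact okB99
  · subst h; exact okB100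
  · subst h; exact okB101
  · subst h; exact okB102
  · subst h; exact okB103
  · subst h; exact okB104
  · subst h; exact okB105
  · subst h; exact okB106
  · subst h; exact okB107
  · subst h; exact okB108
  · subst h; exact okB109
  · subst h; exact okB110
  · subst h; exact okB111

theorem okC7 : ∀ B ∈ BC7, ∀ Q ∈ B, Gd Q := by
  intro B hB
  simp only [BC7, List.mem_cons, List.not_mem_nil, or_false] at hB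
  rcases hB with h | h | h | h | h | h | h | h | h | h
  · subst h; exact okB112
  · subst h; exact okB113
  · subst h; exact okB114
  · subst h; exact okB115
  · subst h; exact okB116
  · subst h; exact okB117
  · subst h; exact okB118
  · subst h; exact okB119
  · subst h; exact okB120
  · subst h; exact okB121

theorem okBB : ∀ C ∈ BB, ∀ B ∈ C, ∀ Q ∈ B, Gd Q := by
  intro B hB
  simp only [BB, List.mem_cons, List.not_mem_nil, or_false] at hB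
  rcases hB with h | h | h | h | h | h | h | h
  · subst h; exact okC0
  · subst h; exact okC1
  · subst h; exact okC2
  · subst h; exact okC3
  · subst h; exact okC4
  · subst h; exact okC5
  · subst h; exact okC6
  · subst h; exact okC7

theorem ok_all (i : ℕ) : Gd (ta i) := by
  have hd : Gd (T0, A0) := g0 ok0 rfl rfl
  unfold ta
  rcases Pool.Agent.Y425.PC.getD_cases BB (Nat.div i 256) [] with h | h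
  · rcases Pool.Agent.Y425.PC.getD_cases (BB.getD (Nat.div i 256) []) (Nat.mod (Nat.div i 16) 16) [] with h' | h'
    · rcases Pool.Agent.Y425.PC.getD_cases ((BB.getD (Nat.div i 256) []).getD (Nat.mod (Nat.div i 16) 16) [])
        (Nat.mod i 16) (T0, A0) with h'' | h''
      · exact okBB _ h _ h' _ h''
      · rw [h'']; exact hd
    · rw [h']
      simpa using hd
  · rw [h]
    simpa using hd

end Pool.Agent.Y425.PC
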