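import Pool.Agent.Y425.PC.Tab

set_option autoImplicit false

/-!
The colour system of the edges of the Petersen graph: the code of an edge stands for the function
that tells which of the 64 cycles (even subgraphs) contain the edge.
-/

namespace Pool.Agent.Y425.PC

open Finset
open Pool.Agent.TH697.CW6 (allB allB_iff dig tb)
open Pool.Agent.Y425.CW
open Pool.Agent.TH222.RG (BT Ent pc8 portsB factB exclB xorB patB)

def pt (g c : ℕ) : ℕ := Nat.land (Nat.shiftRight PTT (Nat.add (Nat.mul 160 g) (Nat.mul 5 c))) 31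

def rho (g i : ℕ) : ℕ := Nat.land (Nat.shiftRight RHO (Nat.add (Nat.mul 384 g) (Nat.mul 6 i))) 63

def cyc (i : ℕ) : ℕ := Nat.land (Nat.shiftRight CYT (Nat.mul 15 i)) 32767

def vc (c : ℕ) : Bool := Nat.blt c 15

def ms (c : ℕ) : ℕ := Nat.land (Nat.shiftRight MST (Nat.mul 64 c)) 18446744073709551615

noncomputable def xr (k : ℕ) (f : ℕ → ℕ) : ℕ := Nat.rec 0 (fun j ih => Nat.xor (f j) ih) k

noncomputable def orN (k : ℕ) (f : ℕ → ℕ) : ℕ := Nat.rec 0 (fun j ih => Nat.lor (f j) ih) k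

/-- the value of a code -/
def val (c : ℕ) : Fin 64 → ZMod 2 := fun i => if (ms c).testBit i = true then 1 else 0

/-- the colour system -/
noncomputable def S : CSys (Fin 64 → ZMod 2) where
  vc := vc
  val := val
  ng := 120
  pt := pt
  zs := fun k F => Nat.beq (xr k fun i => ms (F i)) 0

/-! ### packed tables -/

/-- code of the port i in the representative a -/
def rc (a i : ℕ) : ℕ := Nat.land (Nat.shiftRight REP (Nat.add (Nat.mul 25 a) (Nat.mul 5 i))) 31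

def F106 : ℕ := 0x3ffffffffffffffffffffffffff

def sel (a0 a1 a2 a3 a4 j : ℕ) : ℕ :=
  cond (Nat.beq j 0) a0 (cond (Nat.beq j 1) a1 (cond (Nat.beq j 2) a2 (cond (Nat.beq j 3) a3 a4)))

def rm (j a q : ℕ) : ℕ :=
  Nat.land (Nat.shiftRight (sel RM0 RM1 RM2 RM3 RM4 j) (Nat.mul 106 (Nat.add (Nat.mul 15 a) q))) F106

def rw' (j a q o : ℕ) : ℕ :=
  Nat.land (Nat.shiftRight (sel RW0 RW1 RW2 RW3 RW4 j)
    (Nat.mul 23 (Nat.add (Nat.mul 4 (Nat.add (Nat.mul 15 a) q)) o))) 8388607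

def rt (j x : ℕ) : ℕ :=
  Nat.land (Nat.shiftRight (sel RT0 RT1 RT2 RT3 RT4 j) (Nat.mul 106 x)) F106

def rv (j a x : ℕ) : ℕ :=
  Nat.land (Nat.shiftRight (sel RV0 RV1 RV2 RV3 RV4 j) (Nat.mul 16 (Nat.add (Nat.mul 20 a) x))) 65535

/-- the pairs of six ports -/
def lmp (q : ℕ) : ℕ := Nat.land (Nat.shiftRight 0x30a248a161449130a246143 (Nat.mul 6 q)) 63

/-- the triples of six ports -/
def lmt (x : ℕ) : ℕ := Nat.land (Nat.shiftRight 0xe34cb1b2aa6696371a65655338d2c7 (Nat.mul 6 x)) 63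

/-- the four other ports -/
def rp (q r : ℕ) : ℕ := Nat.land (Nat.shiftRight 0x6888888c88d08d1a88ac8ad0ad1b08b10b11b18b19b1a (Nat.add (Nat.mul 12 q) (Nat.mul 3 r))) 7

/-- the three other ports -/
def rq (x r : ℕ) : ℕ := Nat.land (Nat.shiftRight 0x44321a0d18444223188cc6a9150a8d62b35ab0586c563 (Nat.add (Nat.mul 9 x) (Nat.mul 3 r))) 7

/-- the four ports other than j -/
def rj (j r : ℕ) : ℕ := cond (Nat.blt r j) r (Nat.succ r)

def c6 (j : ℕ) : ℕ := sel 0x984321 0x984320 0x984310 0x984210 0x983210 j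

def c3 (x : ℕ) : ℕ :=
  Nat.lor (rq x 0) (Nat.lor (Nat.shiftLeft (rq x 1) 4) (Nat.shiftLeft (rq x 2) 8))

def pe (p i : ℕ) : ℕ := Nat.land (Nat.shiftRight PER (Nat.add (Nat.mul 15 p) (Nat.mul 3 i))) 7

def cc (q p : ℕ) : ℕ :=
  Nat.land (Nat.shiftRight CCT (Nat.mul 20 (Nat.add (Nat.mul 120 q) p))) 1048575

def ac (p b : ℕ) : ℕ := Nat.land (Nat.shiftRight ACT (Nat.mul 14 (Nat.add (Nat.mul 106 p) b))) 127

def ag (p b : ℕ) : ℕ :=
  Nat.land (Nat.shiftRight ACT (Nat.add (Nat.mul 14 (Nat.add (Nat.mul 106 p) b)) 7)) 127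

/-- the six codes after the first step -/
def uc (st i j x y q : ℕ) : ℕ :=
  cond (Nat.blt q 4) (cd st i (rj j q)) (cond (Nat.beq q 4) x y)

/-- the same for a representative -/
def ur (a j x y q : ℕ) : ℕ := cond (Nat.blt q 4) (rc a (rj j q)) (cond (Nat.beq q 4) x y)

def wb (w : ℕ) : ℕ := Nat.land w 127
def wx (w : ℕ) : ℕ := Nat.land (Nat.shiftRight w 7) 15
def wy (w : ℕ) : ℕ := Nat.land (Nat.shiftRight w 11) 15
def wg (w : ℕ) : ℕ := Nat.land (Nat.shiftRight w 15) 127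
def wv (w : ℕ) : Bool := Nat.beq (Nat.shiftRight w 22) 1

noncomputable def relO (j a q w : ℕ) : Bool :=
  vc (wx w) && (vc (wy w) && (Nat.blt (wg w) 120 &&
    (Nat.beq (Nat.xor (ms (wx w)) (ms (wy w))) (ms (rc a j)) &&
      allB 4 fun r => Nat.beq (pt (wg w) (ur a j (wx w) (wy w) (rp q r))) (rc (wb w) r))))

noncomputable def relB (j a q : ℕ) : Bool :=
  Nat.beq (rm j a q) (orN 4 fun o => cond (wv (rw' j a q o)) (Nat.shiftLeft 1 (wb (rw' j a q o))) 0) &&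
    allB 4 fun o => cond (wv (rw' j a q o)) (relO j a q (rw' j a q o)) true

/-- code of the port i of the type with three ports -/
def s3 (i : ℕ) : ℕ := Nat.land (Nat.shiftRight 0xa4 (Nat.mul 5 i)) 31

noncomputable def triB (j a x : ℕ) : Bool :=
  cond (tb (rt j x) a)
    (vc (Nat.land (rv j a x) 15) && (vc (Nat.land (Nat.shiftRight (rv j a x) 4) 15) &&
      (Nat.blt (Nat.land (Nat.shiftRight (rv j a x) 8) 127) 120 &&
      (Nat.beq (Nat.xor (ms (Nat.land (rv j a x) 15)) (ms (Nat.land (Nat.shiftRight (rv j a x) 4) 15)))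
        (ms (rc a j)) &&
      allB 3 fun r => Nat.beq (pt (Nat.land (Nat.shiftRight (rv j a x) 8) 127)
        (ur a j (Nat.land (rv j a x) 15) (Nat.land (Nat.shiftRight (rv j a x) 4) 15) (rq x r)))
          (s3 r))))) true

noncomputable def actB (p b : ℕ) : Bool :=
  Nat.blt (ac p b) 106 && (Nat.blt (ag p b) 120 &&
    allB 5 fun i => Nat.blt (pe p i) 5 && Nat.beq (pt (ag p b) (rc (ac p b) (pe p i))) (rc b i))

noncomputable def ccB (q p : ℕ) : Bool :=
  portsB 3 6 (lmp q) 5 (cc q p) && allB 5 fun i => cond (Nat.blt (dig (cc q p) i) 8)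
    (Nat.blt (pe p i) 4 && Nat.beq (dig (cc q p) i) (rp q (pe p i))) true

/-! ### the checker -/

def ix (ids i : ℕ) : ℕ := Nat.land (Nat.shiftRight ids (Nat.mul 7 i)) 127

noncomputable def auxB (t : BT) (ids m : ℕ) : Bool :=
  Nat.beq m (orN t.n fun i => Nat.shiftLeft 1 (ix ids i)) && allB t.n fun i =>
    Nat.blt (ix ids i) 106 && allB 5 fun q => Nat.beq (cd t.st i q) (rc (ix ids i) q)

noncomputable def chkE (tbl : ℕ → BT) (aux : ℕ → ℕ × ℕ) (t : BT) (ids j : ℕ)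
    (d : List (ℕ × Bool × ℕ)) (q e : ℕ) : Bool :=
  Nat.blt (Nat.shiftRight e 12) 120 && (Nat.beq (tbl (Nat.land e 4095)).k 5 &&
    (!(xorB (tbl (Nat.land e 4095)).par t.par) &&
    (((tbl (Nat.land e 4095)).fs.all fun P =>
      factB 3 ⟨6, !t.par, 0, 0, d⟩ (lmp q) 5 (cc q (Nat.shiftRight e 12)) P) &&
    Nat.beq (Nat.land (Nat.xor (orN t.n fun i => rm j (ix ids i) q) F106)
      (orN (tbl (Nat.land e 4095)).n fun i =>
        Nat.shiftLeft 1 (ac (Nat.shiftRight e 12) (ix (aux (Nat.land e 4095)).1 i)))) 0)))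

noncomputable def chkV (tbl : ℕ → BT) (aux : ℕ → ℕ × ℕ) (t : BT) (ids m j : ℕ)
    (d : List (ℕ × Bool × ℕ)) (w : ℕ) : Bool :=
  (d.all fun P => Nat.blt P.1 64 && factB 3 t (Nat.shiftLeft 1 j) 6 (c6 j) P) &&
    ((allB 15 fun q => exclB 3 ⟨6, !t.par, 0, 0, d⟩ (lmp q) ||
      chkE tbl aux t ids j d q (Nat.land (Nat.shiftRight w (Nat.mul 20 q)) 1048575)) &&
    allB 20 fun x => exclB 3 ⟨6, !t.par, 0, 0, d⟩ (lmt x) ||
      !(Nat.beq (Nat.land m (rt j x)) 0))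

/-- the check of a type; the steps from five to six ports are left out -/
noncomputable def chkQ (tbl : ℕ → BT) (t : BT) (es : List Ent) : Bool :=
  okF S t && (es.all (fun e => chkF S tbl t e) && allB (Nat.shiftLeft 1 t.k) fun lm =>
    cond (patB 3 6 t.k lm) (exclB 3 t lm || ((es.any fun e => Nat.beq e.lm lm) ||
      (Nat.beq t.k 5 && Nat.beq (pc8 lm) 1))) true)

noncomputable def chk5 (tbl : ℕ → BT) (aux : ℕ → ℕ × ℕ) (t : BT) (A : ℕ × ℕ)
    (D : List (List (ℕ × Bool × ℕ))) (W : List ℕ) : Bool :=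
  auxB t A.1 A.2 && allB 5 fun j => exclB 3 t (Nat.shiftLeft 1 j) ||
    chkV tbl aux t A.1 A.2 j (D.getD j []) (W.getD j 0)

end Pool.Agent.Y425.PC
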