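import Pool.Agent.Y425.PC.Stp
import Pool.Agent.Y425.CW.Cub

set_option autoImplicit false
set_option linter.unusedVariables false
set_option linter.unusedSectionVars false
set_option linter.unusedSimpArgs false

/-! Cubic graphs: the vertices are added one after the other. -/

open Finset
open Pool.Agent.Helper347.Sab (MGraph dg)

namespace Pool.Agent.Y425.PC

open Pool.Agent.TH697.CW6 (Tch cut tch_iff cut_iff mem_ends_iff tch_of_cut cut_insert cut_of_tch
  tch_insert allB anyB tb dig full rem allB_iff anyB_iff tb_eq full_testBit rem_testBit exists_mask)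
open Pool.Agent.TH222.RG
open Pool.Agent.Y425.CW

variable {V E : Type} [Fintype V] [DecidableEq V] [Fintype E] [DecidableEq E]

/-- the state of the sweep after some vertices -/
def Stage (s t : E → V) (hst : ∀ e, s e ≠ t e) (X : Finset V) : Prop :=
  (∃ i o, InvF s t hst S X (tbl i) o) ∨
    ∃ (T : BT) (A : ℕ × ℕ) (j w : ℕ) (d : List (ℕ × Bool × ℕ)) (o : ℕ → E), j < 5 ∧ T.k = 5 ∧
      0 < T.n ∧ OkFT S T ∧ auxB T A.1 A.2 = true ∧ chkV tbl aux T A.1 A.2 j d w = true ∧
      InvV s t hst X T j d o

theorem okT (hall : ∀ i, Gd (ta i)) (i : ℕ) : OkFT S (tbl i) := by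
  obtain ⟨⟨es1, hes1⟩, _⟩ := hall i
  unfold chkQ at hes1
  rw [Bool.and_eq_true] at hes1
  exact okF_spec ok hes1.1

theorem stage_step (hall : ∀ i, Gd (ta i)) (e0 : E) {s t : E → V} {hst : ∀ e, s e ≠ t e}
    (hreg : ∀ v, dg (gr s t hst) univ v = 3)
    (hodd : ∀ Y : Finset V, Odd Y.card → 3 ≤ (cut (gr s t hst) Y).card)
    {X : Finset V} {v : V} (I : Stage s t hst X) (hv : v ∉ X)
    (hw : (cut (gr s t hst) (insert v X)).card ≤ 6) : Stage s t hst (insert v X) := by
  rcases I with ⟨i, o, I⟩ | ⟨T, A, j, w, d, o, hj, hk, hn, O, ha, hc, I⟩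
  · rcases stepA hall e0 hreg hodd (T := tbl i) (A := aux i) (hall i) I hv hw with
      h | ⟨j, d, w, o', hj, hk, ha, hc, I'⟩
    · exact Or.inl h
    · right
      refine ⟨tbl i, aux i, j, w, d, o', hj, hk, ?_, okT hall i, ha, hc, I'⟩
      exact (blt_iff _ _).1 (hall i).2.2
  · left
    have hpar : T.par = true := by
      have h1 := parity (gr s t hst) hreg X
      have h2 : (cut (gr s t hst) X).card = 6 := I.inv.pts.card_cut
      have h3 := I.inv.par
      dsimp only at h3
      cases h4 : T.par
      · rw [h4] at h3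
        have h5 := h3.1 rfl
        rw [Nat.odd_iff] at h5
        omega
      · rfl
    exact stepB hall e0 hreg hodd hj hk hpar ha hc I hv hw

theorem cubic_flow (hall : ∀ i, Gd (ta i)) {s t : E → V} (hst : ∀ e, s e ≠ t e)
    (hreg : ∀ v, dg (gr s t hst) univ v = 3)
    (hbr : ∀ Y : Finset V, (cut (gr s t hst) Y).card ≠ 1)
    (hw : ∃ f : V → ℕ, Function.Injective f ∧
      ∀ T, (cut (gr s t hst) (univ.filter fun v => f v < T)).card ≤ 6) :
    ∃ f, Fl S.vals s t f (univ : Finset V) := by
  obtain ⟨c0, hc0⟩ := ex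
  rcases isEmpty_or_nonempty E with hE | hE
  · refine ⟨fun _ => S.val c0, fun e => isEmptyElim e, fun v _ => ?_⟩
    unfold net
    rw [Finset.univ_eq_empty, sum_empty]
  obtain ⟨e0⟩ := hE
  have hodd : ∀ Y : Finset V, Odd Y.card → 3 ≤ (cut (gr s t hst) Y).card := by
    intro Y hY
    have h1 := parity _ hreg Y
    have h2 := hbr Y
    rw [Nat.odd_iff] at hY
    omega
  obtain ⟨f, hf, hcut⟩ := hw
  have hk0 : (tbl 0).k = 0 := rfl
  have hp0 : (tbl 0).par = false := rfl
  have hf0 : (tbl 0).fs = [] := rfl
  have main : ∀ T, Stage s t hst (univ.filter fun v => f v < T) := by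
    intro T
    induction T with
    | zero =>
      have h0 : (univ.filter fun v => f v < 0) = (∅ : Finset V) := by
        rw [filter_eq_empty_iff]; intro v _; omega
      rw [h0]
      refine Or.inl ⟨0, fun _ => e0, ⟨⟨⟨?_, ?_, ?_⟩, ?_, ?_, ?_⟩, ?_⟩⟩
      · intro i hi
        exact absurd (hk0 ▸ hi : i < 0) (Nat.not_lt_zero _)
      · intro e he
        obtain ⟨w, hw, _⟩ := tch_of_cut he
        exact absurd hw (notMem_empty _)
      · intro i hi
        exact absurd (hk0 ▸ hi : i < 0) (Nat.not_lt_zero _)
      · dsimp only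
        rw [hp0]; simp
      · dsimp only
        intro P hP; rw [hf0] at hP; exact absurd hP List.not_mem_nil
      · intro j hj
        exact absurd hj (Nat.not_lt_zero _)
      · intro j hj
        refine ⟨fun _ => S.val c0, ⟨fun e => ⟨c0, hc0, rfl⟩, fun v hv => absurd hv (notMem_empty _)⟩,
          fun i hi => ?_⟩
        rw [hk0] at hi; omega
    | succ T ih =>
      by_cases h : ∃ v, f v = T
      · obtain ⟨v, hv⟩ := h
        have h1 : (univ.filter fun w => f w < T + 1) = insert v (univ.filter fun w => f w < T) := by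
          ext w
          rw [mem_insert, mem_filter, mem_filter]
          constructor
          · rintro ⟨_, h⟩
            rcases Nat.lt_succ_iff_lt_or_eq.1 h with h | h
            · exact Or.inr ⟨mem_univ _, h⟩
            · left; apply hf; rw [h, hv]
          · rintro (h | ⟨_, h⟩)
            · subst h; exact ⟨mem_univ _, by omega⟩
            · exact ⟨mem_univ _, by omega⟩
        have hvX : v ∉ (univ.filter fun w => f w < T) := by
          rw [mem_filter, hv]; rintro ⟨_, h⟩; omega
        have hc := hcut (T + 1)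
        rw [h1] at hc
        rw [h1]
        exact stage_step hall e0 hreg hodd ih hvX hc
      · have h1 : (univ.filter fun w => f w < T + 1) = (univ.filter fun w => f w < T) := by
          apply filter_congr
          intro w _
          constructor
          · intro h'
            rcases Nat.lt_succ_iff_lt_or_eq.1 h' with h' | h'
            · exact h'
            · exact absurd ⟨w, h'⟩ h
          · intro h'; omega
        rw [h1]
        exact ih
  have hu : (univ.filter fun v => f v < univ.sup f + 1) = (univ : Finset V) := by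
    rw [filter_eq_self]
    intro v hv
    exact Nat.lt_succ_of_le (le_sup (f := f) hv)
  have hm := main (univ.sup f + 1)
  rw [hu] at hm
  rcases hm with ⟨i, o, I⟩ | ⟨T, A, j, w, d, o, hj, hk, hn, O, ha, hc, I⟩
  · obtain ⟨f', hf', _⟩ := I.sts 0 ((blt_iff _ _).1 (hall i).2.2)
    exact ⟨f', hf'⟩
  · exfalso
    have h2 : (cut (gr s t hst) univ).card = 6 := I.inv.pts.card_cut
    have h3 : cut (gr s t hst) univ = ∅ := by
      unfold cut
      rw [filter_eq_empty_iff]
      rintro e _ ⟨_, x, hx, _⟩
      exact hx (mem_univ _)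
    rw [h3, card_empty] at h2
    omega

end Pool.Agent.Y425.PC
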