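import Pool.Agent.Y425.PC.Col
import Pool.Agent.H160R2.CC.Defs

set_option autoImplicit false
set_option maxRecDepth 100000

/-! The cycles of the Petersen graph. -/

open Finset

namespace Pool.Agent.Y425.PC

open Pool.Agent.H160R2.CC Pool.Agent.H160R2.CC.MGraph
open Pool.Agent.TH697.CW6 (allB allB_iff)

/-- the fifteen bits of a cycle from six of them -/
def bits (b0 b1 b2 b3 b4 b10 : Bool) : Fin 15 → Bool :=
  ![b0, b1, b2, b3, b4, b0 ^^ b4, b1 ^^ b0, b2 ^^ b1, b3 ^^ b2, b4 ^^ b3, b10,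
    (b1 ^^ b0) ^^ ((b4 ^^ b3) ^^ ((b2 ^^ b1) ^^ b10)), (b2 ^^ b1) ^^ b10, (b0 ^^ b4) ^^ b10,
    (b4 ^^ b3) ^^ ((b2 ^^ b1) ^^ b10)]

theorem bits_cyc : ∀ b0 b1 b2 b3 b4 b10 : Bool, ∃ i : Fin 64, ∀ e : Fin 15,
    (cyc i).testBit e = bits b0 b1 b2 b3 b4 b10 e := by decide +kernel

theorem ms_cyc' : (allB 15 fun c => allB 64 fun i =>
    !(bne ((ms c).testBit i) ((cyc i).testBit c))) = true := by decide +kernel

theorem ms_cyc {c i : ℕ} (hc : c < 15) (hi : i < 64) : (ms c).testBit i = (cyc i).testBit c := by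
  have h := allB_iff.1 (allB_iff.1 ms_cyc' c hc) i hi
  revert h
  cases (ms c).testBit i <;> cases (cyc i).testBit c <;> simp

theorem evA {p q r : Prop} [Decidable p] [Decidable q] [Decidable r]
    (h : Even (((if p then 1 else 0) + (if q then 1 else 0)) + (if r then 1 else 0) : ℕ)) :
    decide q = (decide p ^^ decide r) := by
  revert h
  by_cases p <;> by_cases q <;> by_cases r <;> simp [*] <;> decide

theorem evB {p q r : Prop} [Decidable p] [Decidable q] [Decidable r]
    (h : Even ((if p then 1 else 0) + ((if q then 1 else 0) + (if r then 1 else 0)) : ℕ)) :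
    decide p = (decide q ^^ decide r) ∧ decide r = (decide q ^^ decide p) := by
  revert h
  by_cases p <;> by_cases q <;> by_cases r <;> simp [*] <;> decide

theorem cf (C : Finset (Fin 15)) (f : Fin 15 → Fin 10) (v : Fin 10) (S : Finset (Fin 15))
    (hS : (univ.filter fun e => f e = v) = S) :
    (C.filter fun e => f e = v).card = ∑ e ∈ S, if e ∈ C then 1 else 0 := by
  rw [← card_filter, ← hS]
  congr 1
  ext e
  simp only [mem_filter, mem_univ, true_and]
  exact and_comm

def psrc : Fin 15 → Fin 10 := ![0, 1, 2, 3, 4, 0, 1, 2, 3, 4, 5, 6, 7, 8, 9]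

def ptgt : Fin 15 → Fin 10 := ![1, 2, 3, 4, 0, 5, 6, 7, 8, 9, 7, 8, 9, 5, 6]

theorem cycle_cyc (C : Finset (Fin 15)) (hC : petersen.IsCycle C) :
    ∃ i : Fin 64, ∀ e : Fin 15, e ∈ C ↔ (cyc i).testBit e = true := by
  have h : ∀ v : Fin 10, Even ((C.filter fun e => psrc e = v).card +
      (C.filter fun e => ptgt e = v).card) := hC
  have v0 := h 0
  have v1 := h 1
  have v2 := h 2
  have v3 := h 3
  have v4 := h 4
  have v5 := h 5
  have v6 := h 6
  have v7 := h 7
  have v9 := h 9
  rw [cf C psrc 0 {0, 5} (by decide), cf C ptgt 0 {4} (by decide),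
    sum_pair (by decide), sum_singleton] at v0
  rw [cf C psrc 1 {1, 6} (by decide), cf C ptgt 1 {0} (by decide),
    sum_pair (by decide), sum_singleton] at v1
  rw [cf C psrc 2 {2, 7} (by decide), cf C ptgt 2 {1} (by decide),
    sum_pair (by decide), sum_singleton] at v2
  rw [cf C psrc 3 {3, 8} (by decide), cf C ptgt 3 {2} (by decide),
    sum_pair (by decide), sum_singleton] at v3
  rw [cf C psrc 4 {4, 9} (by decide), cf C ptgt 4 {3} (by decide),
    sum_pair (by decide), sum_singleton] at v4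
  rw [cf C psrc 5 {10} (by decide), cf C ptgt 5 {5, 13} (by decide),
    sum_singleton, sum_pair (by decide)] at v5
  rw [cf C psrc 6 {11} (by decide), cf C ptgt 6 {6, 14} (by decide),
    sum_singleton, sum_pair (by decide)] at v6
  rw [cf C psrc 7 {12} (by decide), cf C ptgt 7 {7, 10} (by decide),
    sum_singleton, sum_pair (by decide)] at v7
  rw [cf C psrc 9 {14} (by decide), cf C ptgt 9 {9, 12} (by decide),
    sum_singleton, sum_pair (by decide)] at v9
  have e5 := evA v0
  have e6 := evA v1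
  have e7 := evA v2
  have e8 := evA v3
  have e9 := evA v4
  have e13 := (evB v5).2
  have e12 := (evB v7).1
  have e14 := (evB v9).1
  have e11 := (evB v6).1
  obtain ⟨i, hi⟩ := bits_cyc (decide ((0 : Fin 15) ∈ C)) (decide ((1 : Fin 15) ∈ C))
    (decide ((2 : Fin 15) ∈ C)) (decide ((3 : Fin 15) ∈ C)) (decide ((4 : Fin 15) ∈ C))
    (decide ((10 : Fin 15) ∈ C))
  refine ⟨i, fun e => ?_⟩
  rw [hi e]
  have key : ∀ e : Fin 15, decide (e ∈ C) = bits (decide ((0 : Fin 15) ∈ C))
      (decide ((1 : Fin 15) ∈ C)) (decide ((2 : Fin 15) ∈ C)) (decide ((3 : Fin 15) ∈ C))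
      (decide ((4 : Fin 15) ∈ C)) (decide ((10 : Fin 15) ∈ C)) e := by
    intro e
    rw [e7] at e12
    rw [e9, e12] at e14
    rw [e6, e14] at e11
    rw [e5] at e13
    match e with
    | 0 => rfl
    | 1 => rfl
    | 2 => rfl
    | 3 => rfl
    | 4 => rfl
    | 5 => exact e5
    | 6 => exact e6
    | 7 => exact e7
    | 8 => exact e8
    | 9 => exact e9
    | 10 => rfl
    | 11 => exact e11
    | 12 => exact e12
    | 13 => exact e13
    | 14 => exact e14
  rw [← key e, decide_eq_true_eq]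

end Pool.Agent.Y425.PC
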