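import Pool.Agent.Y425.PC.All
import Pool.Agent.Y425.PC.Gen
import Pool.Agent.Y425.PC.Cyc
import Pool.Agent.Y425.BF6.Cor

set_option autoImplicit false
set_option maxRecDepth 100000

/-!
Maps from the edges of the bridgeless graphs of cutwidth at most six to the edges of the Petersen
graph.
-/

open Finset

namespace Pool.Agent.Y425.PC

open Pool.Agent.Y425.CW

theorem final (V E : Type) [Fintype V] [DecidableEq V] [Fintype E] [DecidableEq E] (s t : E → V)
    (hbridge : ∀ Z : Finset V, (univ.filter fun e => ¬ (s e ∈ Z ↔ t e ∈ Z)).card ≠ 1)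
    (hwidth : ∃ f : V → ℕ, Function.Injective f ∧
      ∀ n, (univ.filter fun e => ¬ (f (s e) < n ↔ f (t e) < n)).card ≤ 6) :
    ∃ c : E → Fin 15, ∀ i < 64, ∀ v,
      Even (((univ.filter fun e => (cyc i).testBit (c e) = true).filter (fun e => s e = v)).card +
        ((univ.filter fun e => (cyc i).testBit (c e) = true).filter (fun e => t e = v)).card) := by
  classical
  obtain ⟨num, hinj, hnum⟩ := hwidth
  obtain ⟨f, hf1, hf2⟩ := general ok_all V E s t (by
      intro Z
      have h := hbridge (univ.filter fun x => x ∈ Z)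
      intro h'
      apply h
      rw [← h']
      congr 1
      ext e
      rw [mem_ct]
      simp) ⟨num, hinj, by
      intro n
      refine le_trans (le_of_eq ?_) (hnum n)
      congr 1
      ext e
      rw [mem_ct]
      simp⟩
  choose c hc using hf1
  have hlt : ∀ e, c e < 15 := fun e => (Pool.Agent.TH222.RG.blt_iff _ _).1 (hc e).1
  refine ⟨fun e => ⟨c e, hlt e⟩, ?_⟩
  intro i hi v
  have h1 : ∑ e, ((if s e = v then f e else 0) - (if t e = v then f e else 0)) ⟨i, hi⟩ = 0 := by
    have h0 := congrFun (hf2 v) ⟨i, hi⟩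
    unfold nt at h0
    rw [Finset.sum_apply] at h0
    convert h0
    rfl
  have h2 : ∀ e, ((if s e = v then f e else 0) - (if t e = v then f e else 0)) ⟨i, hi⟩ =
      (if e ∈ (univ.filter fun e => (cyc i).testBit (c e) = true).filter (fun e => s e = v)
        then (1 : ZMod 2) else 0) +
      (if e ∈ (univ.filter fun e => (cyc i).testBit (c e) = true).filter (fun e => t e = v)
        then (1 : ZMod 2) else 0) := by
    intro e
    have h3 : f e ⟨i, hi⟩ = if (cyc i).testBit (c e) = true then 1 else 0 := by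
      rw [← (hc e).2, ← ms_cyc (hlt e) hi]; rfl
    rw [Pi.sub_apply]
    have h4 : ∀ x y : ZMod 2, x - y = x + y := by decide
    rw [h4]
    have h5 : ∀ q : E → V, (if q e = v then f e else 0) ⟨i, hi⟩ =
        if e ∈ (univ.filter fun e => (cyc i).testBit (c e) = true).filter (fun e => q e = v)
          then (1 : ZMod 2) else 0 := by
      intro q
      simp only [mem_filter, mem_univ, true_and]
      by_cases hq : q e = v
      · rw [if_pos hq, h3]
        simp [hq]
      · rw [if_neg hq, if_neg (fun h => hq h.2)]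
        rfl
    rw [← h5 s, ← h5 t]
  rw [sum_congr rfl (fun e _ => h2 e), sum_add_distrib, sum_ite_mem, sum_ite_mem, univ_inter,
    univ_inter, sum_const, sum_const, nsmul_eq_mul, nsmul_eq_mul, mul_one, mul_one] at h1
  have h6 : (((((univ.filter fun e => (cyc i).testBit (c e) = true).filter
      (fun e => s e = v)).card + ((univ.filter fun e => (cyc i).testBit (c e) = true).filter
      (fun e => t e = v)).card : ℕ)) : ZMod 2) = 0 := by
    push_cast
    exact h1
  rw [ZMod.natCast_eq_zero_iff_even] at h6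
  exact h6

open Pool.Agent.H160R2.CC Pool.Agent.H160R2.CC.MGraph in
/-- cycle-continuous maps to the Petersen graph -/
theorem succ_petersen (G : MGraph) (hB : ¬ G.HasCutEdge)
    (hwidth : ∃ f : G.V → ℕ, Function.Injective f ∧
      ∀ n, (univ.filter fun e => ¬ (f (G.src e) < n ↔ f (G.tgt e) < n)).card ≤ 6) :
    Succ G petersen := by
  obtain ⟨c, hc⟩ := final G.V G.E G.src G.tgt (by
    intro Z hZ
    apply hB
    obtain ⟨e, he⟩ := card_eq_one.mp hZ
    refine ⟨Z, e, fun e' => ?_⟩
    rw [← mem_singleton, ← he, mem_filter]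
    exact ⟨fun h => ⟨mem_univ _, h⟩, fun h => h.2⟩) hwidth
  let c' : G.E → petersen.E := c
  refine ⟨c', fun C hC => ?_⟩
  obtain ⟨i, hi⟩ := cycle_cyc C hC
  intro v
  have h := hc i i.2 v
  have h1 : (univ.filter fun e => (cyc i).testBit (c e) = true) =
      (univ.filter fun e => c' e ∈ C) := by
    ext e
    rw [mem_filter, mem_filter]
    exact ⟨fun h => ⟨mem_univ _, (hi (c e)).2 h.2⟩, fun h => ⟨mem_univ _, (hi (c e)).1 h.2⟩⟩
  rw [h1] at h
  exact h

/-! ### short covers -/

/-- the four cycles of a shortest cover of the Petersen graph -/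
def i4 : Fin 4 → ℕ := ![1, 11, 20, 44]

theorem cov4 : ∀ g : Fin 120, ∀ c : Fin 15, ∃ k : Fin 4, (cyc (rho g (i4 k))).testBit c = true := by
  decide +kernel

theorem sum4 : ∀ c : Fin 15, ∑ g : Fin 120, ∑ k : Fin 4,
    (if (cyc (rho g (i4 k))).testBit c = true then 1 else 0) = 168 := by
  decide +kernel

theorem lt4 : ∀ g : Fin 120, ∀ k : Fin 4, rho g (i4 k) < 64 := by decide +kernel

open Pool.Agent.Y425.BF6.Cor in
/-- four even subgraphs of total length at most 7 / 5 times the number of edges -/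
theorem short4 (V E : Type) [Fintype V] [DecidableEq V] [Fintype E] [DecidableEq E] (s t : E → V)
    (hbridge : ∀ Z : Finset V, (univ.filter fun e => ¬ (s e ∈ Z ↔ t e ∈ Z)).card ≠ 1)
    (hwidth : ∃ f : V → ℕ, Function.Injective f ∧
      ∀ n, (univ.filter fun e => ¬ (f (s e) < n ↔ f (t e) < n)).card ≤ 6) :
    ∃ D : Fin 4 → Finset E, (∀ k, Cyc s t (D k)) ∧ (∀ e, ∃ k, e ∈ D k) ∧
      5 * ∑ k, (D k).card ≤ 7 * Fintype.card E := by
  obtain ⟨c, hc⟩ := final V E s t hbridge hwidth
  have hcard : ∀ i, (univ.filter fun e => (cyc i).testBit (c e) = true).card =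
      ∑ e, if (cyc i).testBit (c e) = true then 1 else 0 := by
    intro i
    rw [card_filter]
  obtain ⟨g, _, hle⟩ := exists_le_of_sum_le (s := (univ : Finset (Fin 120)))
    (f := fun g : Fin 120 => 5 * ∑ k : Fin 4, (univ.filter fun e =>
      (cyc (rho g (i4 k))).testBit (c e) = true).card) (g := fun _ => 7 * Fintype.card E)
    ⟨0, mem_univ _⟩ (by
      rw [← mul_sum, sum_const, card_univ, Fintype.card_fin, smul_eq_mul]
      have h1 : ∀ g : Fin 120, ∑ k : Fin 4, (univ.filter fun e =>
          (cyc (rho g (i4 k))).testBit (c e) = true).card =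
          ∑ e, ∑ k : Fin 4, (if (cyc (rho g (i4 k))).testBit (c e) = true then 1 else 0) := by
        intro g
        rw [sum_congr rfl fun k _ => hcard (rho g (i4 k)), sum_comm]
      rw [sum_congr rfl fun g _ => h1 g, sum_comm, sum_congr rfl fun e _ => sum4 (c e),
        sum_const, card_univ, smul_eq_mul]
      omega)
  refine ⟨fun k => univ.filter fun e => (cyc (rho g (i4 k))).testBit (c e) = true, ?_, ?_, hle⟩
  · intro k v
    rw [deg_eq]
    exact hc _ (lt4 g k) v
  · intro e
    obtain ⟨k, hk⟩ := cov4 g (c e)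
    exact ⟨k, mem_filter.2 ⟨mem_univ _, hk⟩⟩

open Pool.Agent.Y425.BF6.Cor in
/-- covers by circuits -/
theorem short (V E : Type) [Fintype V] [DecidableEq V] [Fintype E] [DecidableEq E] (s t : E → V)
    (hbridge : ∀ Z : Finset V, (univ.filter fun e => ¬ (s e ∈ Z ↔ t e ∈ Z)).card ≠ 1)
    (hwidth : ∃ f : V → ℕ, Function.Injective f ∧
      ∀ n, (univ.filter fun e => ¬ (f (s e) < n ↔ f (t e) < n)).card ≤ 6) :
    ∃ F : Multiset (Finset E), (∀ C ∈ F, Circ s t C) ∧ (∀ e, ∃ C ∈ F, e ∈ C) ∧
      5 * (F.map Finset.card).sum ≤ 7 * Fintype.card E := by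
  obtain ⟨D, h1, h2, h3⟩ := short4 V E s t hbridge hwidth
  obtain ⟨F₀, a1, a2, a3⟩ := decomp _ (D 0) rfl (h1 0)
  obtain ⟨F₁, b1, b2, b3⟩ := decomp _ (D 1) rfl (h1 1)
  obtain ⟨F₂, c1, c2, c3⟩ := decomp _ (D 2) rfl (h1 2)
  obtain ⟨F₃, d1, d2, d3⟩ := decomp _ (D 3) rfl (h1 3)
  refine ⟨F₀ + F₁ + F₂ + F₃, ?_, ?_, ?_⟩
  · intro C hC
    rw [Multiset.mem_add, Multiset.mem_add, Multiset.mem_add] at hC
    rcases hC with ((h | h) | h) | h
    · exact a1 C h
    · exact b1 C h
    · exact c1 C h
    · exact d1 C h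
  · intro e
    obtain ⟨k, hk⟩ := h2 e
    match k, hk with
    | 0, hk =>
      obtain ⟨C, hC, heC⟩ := a2 e hk
      refine ⟨C, ?_, heC⟩
      rw [Multiset.mem_add, Multiset.mem_add, Multiset.mem_add]
      exact Or.inl (Or.inl (Or.inl hC))
    | 1, hk =>
      obtain ⟨C, hC, heC⟩ := b2 e hk
      refine ⟨C, ?_, heC⟩
      rw [Multiset.mem_add, Multiset.mem_add, Multiset.mem_add]
      exact Or.inl (Or.inl (Or.inr hC))
    | 2, hk =>
      obtain ⟨C, hC, heC⟩ := c2 e hk
      refine ⟨C, ?_, heC⟩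
      rw [Multiset.mem_add, Multiset.mem_add, Multiset.mem_add]
      exact Or.inl (Or.inr hC)
    | 3, hk =>
      obtain ⟨C, hC, heC⟩ := d2 e hk
      refine ⟨C, ?_, heC⟩
      rw [Multiset.mem_add, Multiset.mem_add, Multiset.mem_add]
      exact Or.inr hC
  · rw [Multiset.map_add, Multiset.map_add, Multiset.map_add, Multiset.sum_add, Multiset.sum_add,
      Multiset.sum_add, a3, b3, c3, d3]
    rw [Fin.sum_univ_four] at h3
    exact h3

end Pool.Agent.Y425.PC
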