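import Pool.Agent.Y425.PC.Col
import Pool.Agent.Y425.PC.Tys

set_option autoImplicit false

/-! Types that pass the checks. -/

namespace Pool.Agent.Y425.PC

open Pool.Agent.TH222.RG (BT Ent)

theorem getD_cases {α : Type} (l : List α) (i : ℕ) (d : α) : l.getD i d ∈ l ∨ l.getD i d = d := by
  by_cases h : i < l.length
  · left
    rw [List.getD_eq_getElem _ _ h]
    exact List.getElem_mem h
  · right
    exact List.getD_eq_default _ _ (not_lt.1 h)

/-- the type P passes the checks -/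
def Gd (P : BT × ℕ × ℕ) : Prop := (∃ es, chkQ tbl P.1 es = true) ∧
  (Nat.beq P.1.k 5 = true → ∃ D W, chk5 tbl aux P.1 P.2 D W = true) ∧ Nat.blt 0 P.1.n = true

theorem g5 {t : BT} {A : ℕ × ℕ} {es : List Ent} {D : List (List (ℕ × Bool × ℕ))} {W : List ℕ}
    (h : chkQ tbl t es = true) (h' : chk5 tbl aux t A D W = true) (hn : Nat.blt 0 t.n = true) :
    Gd (t, A) :=
  ⟨⟨es, h⟩, fun _ => ⟨D, W, h'⟩, hn⟩

theorem g0 {t : BT} {A : ℕ × ℕ} {es : List Ent} (h : chkQ tbl t es = true)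
    (hk : Nat.beq t.k 5 = false) (hn : Nat.blt 0 t.n = true) : Gd (t, A) :=
  ⟨⟨es, h⟩, fun h' => absurd (hk.symm.trans h') (by decide), hn⟩

theorem gc {P : BT × ℕ × ℕ} {l : List (BT × ℕ × ℕ)} (h : Gd P) (hl : ∀ Q ∈ l, Gd Q) :
    ∀ Q ∈ P :: l, Gd Q := by
  intro Q hQ
  rcases List.mem_cons.1 hQ with h' | h'
  · subst h'; exact h
  · exact hl Q h'

theorem gn : ∀ Q ∈ ([] : List (BT × ℕ × ℕ)), Gd Q := fun _ h => absurd h List.not_mem_nil

end Pool.Agent.Y425.PC
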