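import Pool.Agent.Y425.PC.Col
import Pool.Agent.Y425.CW.Stp

set_option autoImplicit false
set_option maxRecDepth 100000

/-! The tables are correct. -/

namespace Pool.Agent.Y425.PC

open Finset
open Pool.Agent.TH697.CW6 (allB allB_iff dig tb)
open Pool.Agent.TH222.RG (beq_iff blt_iff ble_iff portsB)
open Pool.Agent.Y425.CW

theorem rho_ok : (allB 120 fun g => allB 64 fun i => Nat.blt (rho g i) 64) = true := by
  decide +kernel

theorem pt_ok : (allB 120 fun g => allB 15 fun c => vc (pt g c) && allB 64 fun i =>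
    !(bne (Nat.beq (Nat.land (Nat.shiftRight (ms (pt g c)) i) 1) 1)
      (Nat.beq (Nat.land (Nat.shiftRight (ms c) (rho g i)) 1) 1))) = true := by
  decide +kernel

theorem tb1 (m i : ℕ) : Nat.beq (Nat.land (Nat.shiftRight m i) 1) 1 = m.testBit i :=
  Pool.Agent.TH697.CW6.tb_eq m i

theorem xr_testBit (k : ℕ) (f : ℕ → ℕ) (j : ℕ) :
    ∑ i ∈ range k, (if (f i).testBit j = true then (1 : ZMod 2) else 0) =
      if (xr k f).testBit j = true then 1 else 0 := by
  induction k with
  | zero => simp [xr]
  | succ k ih =>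
    rw [sum_range_succ, ih]
    have h0 : xr (k + 1) f = f k ^^^ xr k f := rfl
    rw [h0, Nat.testBit_xor]
    cases (f k).testBit j <;> cases (xr k f).testBit j <;> decide

theorem ok : S.Ok where
  neg c hc := ⟨c, hc, by
    funext i
    show val c i = - val c i
    unfold val
    split_ifs <;> decide⟩
  sym g hg := by
    have hg' : g < 120 := hg
    have h1 := pt_ok
    have h2 := rho_ok
    rw [allB_iff] at h1 h2
    have h3 := h1 g hg'
    have h4 := h2 g hg'
    rw [allB_iff] at h3 h4
    have h5 : ∀ i < 64, rho g i < 64 := fun i hi => (blt_iff _ _).1 (h4 i hi)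
    refine ⟨⟨⟨fun x i => x ⟨rho g i, h5 i i.2⟩, rfl⟩, fun x y => rfl⟩, ?_⟩
    intro c hc
    have hc' : c < 15 := (blt_iff _ _).1 hc
    have h6 := h3 c hc'
    rw [Bool.and_eq_true, allB_iff] at h6
    refine ⟨h6.1, ?_⟩
    funext i
    have h7 := h6.2 i i.2
    rw [tb1, tb1] at h7
    have h8 : (ms (pt g c)).testBit i = (ms c).testBit (rho g i) := by
      revert h7
      cases (ms (pt g c)).testBit i <;> cases (ms c).testBit (rho g i) <;> simp
    show val (pt g c) i = val c ⟨rho g i, h5 i i.2⟩
    unfold val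
    rw [h8]
  sum k _ F _ h := by
    have h1 : xr k (fun i => ms (F i)) = 0 := (beq_iff _ _).1 h
    funext j
    rw [Finset.sum_apply]
    show ∑ i ∈ range k, val (F i) j = 0
    unfold val
    rw [xr_testBit k (fun i => ms (F i)) j, h1, Nat.zero_testBit]
    rfl

theorem ex : ∃ c, S.vc c = true := ⟨0, rfl⟩

theorem val_add {x y z : ℕ} (h : Nat.beq (Nat.xor (ms x) (ms y)) (ms z) = true) :
    val x + val y = val z := by
  have h1 : ms x ^^^ ms y = ms z := (beq_iff _ _).1 h
  funext i
  show val x i + val y i = val z i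
  unfold val
  rw [← h1, Nat.testBit_xor]
  cases (ms x).testBit i <;> cases (ms y).testBit i <;> decide

theorem orN_testBit (k : ℕ) (f : ℕ → ℕ) (b : ℕ) :
    (orN k f).testBit b = true ↔ ∃ i < k, (f i).testBit b = true := by
  induction k with
  | zero => simp [orN]
  | succ k ih =>
    have h0 : orN (k + 1) f = f k ||| orN k f := rfl
    rw [h0, Nat.testBit_or, Bool.or_eq_true, ih]
    constructor
    · rintro (h | ⟨i, hi, h⟩)
      · exact ⟨k, by omega, h⟩
      · exact ⟨i, by omega, h⟩
    · rintro ⟨i, hi, h⟩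
      rcases Nat.lt_succ_iff_lt_or_eq.1 hi with h' | h'
      · exact Or.inr ⟨i, h', h⟩
      · subst h'; exact Or.inl h

theorem shl_testBit (a b : ℕ) : (Nat.shiftLeft 1 a).testBit b = true ↔ b = a := by
  have h : Nat.shiftLeft 1 a = 2 ^ a := by
    have e : Nat.shiftLeft 1 a = 1 <<< a := rfl
    rw [e, Nat.one_shiftLeft]
  rw [h, Nat.testBit_two_pow]
  simp [eq_comm]

theorem rel0 : (allB 106 fun a => allB 15 fun q => relB 0 a q) = true := by decide +kernel
theorem rel1 : (allB 106 fun a => allB 15 fun q => relB 1 a q) = true := by decide +kernel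
theorem rel2 : (allB 106 fun a => allB 15 fun q => relB 2 a q) = true := by decide +kernel
theorem rel3 : (allB 106 fun a => allB 15 fun q => relB 3 a q) = true := by decide +kernel
theorem rel4 : (allB 106 fun a => allB 15 fun q => relB 4 a q) = true := by decide +kernel

theorem rel_all {j a q : ℕ} (hj : j < 5) (ha : a < 106) (hq : q < 15) : relB j a q = true := by
  have h : ∀ j < 5, (allB 106 fun a => allB 15 fun q => relB j a q) = true := by
    intro j hj
    interval_cases j
    · exact rel0
    · exact rel1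
    · exact rel2
    · exact rel3
    · exact rel4
  exact allB_iff.1 (allB_iff.1 (h j hj) a ha) q hq

theorem tri_ok : (allB 5 fun j => allB 106 fun a => allB 20 fun x => triB j a x) = true := by
  decide +kernel

theorem act_ok : (allB 120 fun p => allB 106 fun b => actB p b) = true := by decide +kernel

theorem cc_ok : (allB 15 fun q => allB 120 fun p => ccB q p) = true := by decide +kernel

theorem c6_ok : (allB 5 fun j => portsB 3 5 (Nat.shiftLeft 1 j) 6 (c6 j) && allB 4 fun q =>
    Nat.beq (dig (c6 j) q) (rj j q) && Nat.blt (rj j q) 5) = true := by decide +kernel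

theorem c6_ok' : (allB 5 fun j => Nat.beq (dig (c6 j) 4) 8 && Nat.beq (dig (c6 j) 5) 9) = true := by
  decide +kernel

theorem c3_ok : (allB 20 fun x => portsB 3 6 (lmt x) 3 (c3 x) && allB 3 fun r =>
    Nat.beq (dig (c3 x) r) (rq x r) && Nat.blt (rq x r) 6) = true := by decide +kernel

theorem rp_ok : (allB 15 fun q => allB 4 fun r => Nat.blt (rp q r) 6) = true := by decide +kernel

theorem rc_ok : (allB 106 fun a => allB 5 fun i => vc (rc a i)) = true := by decide +kernel

/-- the relation of two steps -/
theorem rel_spec {j a q b : ℕ} (hj : j < 5) (ha : a < 106) (hq : q < 15)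
    (hb : (rm j a q).testBit b = true) : ∃ x y g, vc x = true ∧ vc y = true ∧ g < 120 ∧
      val x + val y = val (rc a j) ∧ ∀ r < 4, pt g (ur a j x y (rp q r)) = rc b r := by
  have h := rel_all hj ha hq
  unfold relB at h
  rw [Bool.and_eq_true, beq_iff, allB_iff] at h
  obtain ⟨h1, h2⟩ := h
  rw [h1, orN_testBit] at hb
  obtain ⟨o, ho, h3⟩ := hb
  cases hv : wv (rw' j a q o)
  · rw [hv, cond_false] at h3
    simp at h3
  · rw [hv, cond_true, shl_testBit] at h3
    have h4 := h2 o ho
    rw [hv, cond_true] at h4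
    unfold relO at h4
    simp only [Bool.and_eq_true, blt_iff, allB_iff] at h4
    obtain ⟨h5, h6, h7, h8, h9⟩ := h4
    refine ⟨_, _, _, h5, h6, h7, val_add h8, fun r hr => ?_⟩
    rw [h3]
    exact (beq_iff _ _).1 (h9 r hr)

end Pool.Agent.Y425.PC
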