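import Pool.Agent.Y425.PC.Ok
import Pool.Agent.Y425.PC.Gd

set_option autoImplicit false
set_option linter.unusedVariables false
set_option linter.unusedSectionVars false
set_option linter.unusedSimpArgs false

/-! The steps: one vertex is added. -/

open Finset
open Pool.Agent.Helper347.Sab (MGraph dg)

namespace Pool.Agent.Y425.PC

open Pool.Agent.TH697.CW6 (Tch cut tch_iff cut_iff mem_ends_iff tch_of_cut cut_insert cut_of_tch
  tch_insert allB anyB tb dig full rem allB_iff anyB_iff tb_eq full_testBit rem_testBit exists_mask)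
open Pool.Agent.TH222.RG
open Pool.Agent.Y425.CW

variable {V E : Type} [Fintype V] [DecidableEq V] [Fintype E] [DecidableEq E]
  {s t : E → V} {hst : ∀ e, s e ≠ t e} {X : Finset V} {o : ℕ → E} {v : V}

theorem ctx_pat {k w : ℕ} {par : Bool} {fs : List (ℕ × Bool × ℕ)} (e0 : E)
    (hreg : ∀ v, dg (gr s t hst) univ v = 3)
    (hodd : ∀ Y : Finset V, Odd Y.card → 3 ≤ (cut (gr s t hst) Y).card)
    (I : Inv (gr s t hst) 3 X ⟨k, par, 0, 0, fs⟩ o) (hk : k ≤ 8) (hfs : ∀ Q ∈ fs, Q.1 < 2 ^ k)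
    (hv : v ∉ X) (hw : (cut (gr s t hst) (insert v X)).card ≤ w) :
    ∃ lm m n, Ctx (gr s t hst) 3 X k o v lm m n ∧ lm < 2 ^ k ∧ patB 3 w k lm = true ∧
      exclB 3 ⟨k, par, 0, 0, fs⟩ lm = false := by
  have IP : Pts (gr s t hst) X k o := I.pts
  obtain ⟨lm, m, n, C⟩ := exists_ctx (r := 3) e0 (hreg v) hk IP hv
  refine ⟨lm, m, n, C, lm_lt C, ?_, C.not_exclB I hodd hfs⟩
  have hr := C.hr
  have hcl : pc8 lm = ((cut (gr s t hst) X).filter fun e => v ∈ (gr s t hst).ends e).card := by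
    apply C.pts.card_ports C.hk
    · exact filter_subset _ _
    · intro i
      rw [C.hlm i, mem_filter]
      constructor
      · rintro ⟨h1, h2⟩; exact ⟨h1, C.pts.mem i h1, h2⟩
      · rintro ⟨h1, _, h2⟩; exact ⟨h1, h2⟩
  have hcm : (univ.filter fun e => v ∈ (gr s t hst).ends e ∧ e ∉ cut (gr s t hst) X).card = m := by
    have : (univ.filter fun e => v ∈ (gr s t hst).ends e ∧ e ∉ cut (gr s t hst) X) =
        (range m).image n := by
      ext e
      rw [mem_filter, mem_image]
      constructor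
      · rintro ⟨_, h1, h2⟩
        obtain ⟨q, hq, h⟩ := C.hns e h1 h2
        exact ⟨q, mem_range.2 hq, h⟩
      · rintro ⟨q, hq, h⟩
        rw [← h]
        exact ⟨mem_univ _, C.hn q (mem_range.1 hq)⟩
    rw [this, card_image_of_injOn, card_range]
    intro i hi j hj hij
    rw [mem_coe, mem_range] at hi hj
    exact C.hni i hi j hj hij
  have hc4 : (cut (gr s t hst) (insert v X)).card =
      ((cut (gr s t hst) X).filter fun e => v ∉ (gr s t hst).ends e).card + m := by
    rw [← hcm, ← card_union_of_disjoint]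
    · congr 1
      ext e
      rw [cut_insert C.hv]
      simp only [mem_union, mem_filter, mem_univ, true_and]
    · rw [disjoint_left]
      intro e h1 h2
      rw [mem_filter] at h1 h2
      exact h2.2.2 h1.1
  have hc5 : ((cut (gr s t hst) X).filter fun e => v ∈ (gr s t hst).ends e).card +
      ((cut (gr s t hst) X).filter fun e => v ∉ (gr s t hst).ends e).card = k := by
    rw [card_filter_add_card_filter_not, C.pts.card_cut]
  unfold patB
  rw [Bool.and_eq_true, ble_iff, ble_iff]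
  have e1 : Nat.add k 3 = k + 3 := rfl
  have e2 : Nat.add w (Nat.mul 2 (pc8 lm)) = w + 2 * pc8 lm := rfl
  rw [e1, e2]
  omega

theorem inv_step {k k' c lm m : ℕ} {n : ℕ → E} {par par' : Bool}
    {fs fs' : List (ℕ × Bool × ℕ)} (C : Ctx (gr s t hst) 3 X k o v lm m n)
    (I : Inv (gr s t hst) 3 X ⟨k, par, 0, 0, fs⟩ o) (hfs : ∀ Q ∈ fs, Q.1 < 2 ^ k)
    (P : Prt k lm m k' c) (hpar : xorB par' par = true)
    (hfa : ∀ Q ∈ fs', factB 3 ⟨k, par, 0, 0, fs⟩ lm k' c Q = true) :
    Inv (gr s t hst) 3 (insert v X) ⟨k', par', 0, 0, fs'⟩ (fun i => sr o n (dig c i)) := by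
  refine ⟨C.newPts P, ?_, ?_, ?_⟩
  · have hp := I.par
    dsimp only at hp ⊢
    rw [card_insert_of_notMem C.hv, Nat.odd_add_one, ← hp]
    revert hpar
    cases par <;> cases par' <;> simp [xorB]
  · intro Q hQ
    exact C.factB_spec I hfs P (hfa Q hQ)
  · intro j hj
    exact absurd hj (Nat.not_lt_zero _)

theorem entry_step {T : BT} {lm m : ℕ} {n : ℕ → E} (C : Ctx (gr s t hst) 3 X T.k o v lm m n)
    (I : InvF s t hst S X T o) (O : OkFT S T) {e : Ent} (hel : e.lm = lm)
    (hce : chkF S tbl T e = true) (O1 : OkFT S (tbl e.ti)) :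
    ∃ i1 o', InvF s t hst S (insert v X) (tbl i1) o' := by
  unfold chkF at hce
  rw [hel] at hce
  refine ⟨e.ti, fun i => sr o n (dig e.c i), ?_⟩
  revert hce O1
  generalize tbl e.ti = t1
  obtain ⟨k', par', n', st', fs'⟩ := t1
  intro hce O1
  dsimp only at hce
  simp only [Bool.and_eq_true, List.all_eq_true] at hce
  obtain ⟨g1, g2, g3, g4, g5⟩ := hce
  have P := C.prt (by norm_num) g3
  refine ⟨inv_step C I.inv O.hfs P g2 (fun Q hQ => g4 Q hQ), ?_⟩
  intro j hj
  unfold statesF at g5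
  rw [allB_iff] at g5
  have := g5 j hj
  simp only at this
  generalize Nat.land (Nat.shiftRight e.ws (Nat.mul 20 j)) 1048575 = ww at this
  cases hc : Nat.blt (Nat.shiftRight ww 10) T.n
  · rw [hc, cond_false] at this; exact absurd this (by simp)
  rw [hc, cond_true] at this
  cases hg : Nat.blt (Nat.land ww 1023) S.ng
  · rw [hg, cond_false] at this; exact absurd this (by simp)
  rw [hg, cond_true] at this
  rw [blt_iff] at hc hg
  obtain ⟨f, hf, hfo⟩ := I.sts _ hc
  obtain ⟨f1, hf1, hfo1⟩ := act (o := o) ok hg hf (fun i hi => O.hc _ hc i hi) hfo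
  unfold stOK at this
  rw [allB_iff] at this
  refine state_step C P (vals_neg ok) hf1 (fun i => S.val (cd st' j i))
    (fun i hi => ⟨_, O1.hc j hj i hi, rfl⟩) (O1.hz j hj) ?_
  intro i hi h8
  have h9 := this i hi
  rw [(blt_iff _ _).2 h8, cond_true, beq_iff] at h9
  have h10 : dig e.c i < T.k := by
    rcases C.src_cases (P.p1 i hi) with ⟨_, h, _⟩ | ⟨h, _⟩
    · exact h
    · exact absurd h8 h
  beta_reduce
  rw [hfo1 _ h10, h9]

/-- six ports after the first of two steps -/
structure InvV (s t : E → V) (hst : ∀ e, s e ≠ t e) (X : Finset V) (T : BT) (j : ℕ)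
    (d : List (ℕ × Bool × ℕ)) (o : ℕ → E) : Prop where
  inv : Inv (gr s t hst) 3 X ⟨6, !T.par, 0, 0, d⟩ o
  sts : ∀ i < T.n, ∀ x y, vc x = true → vc y = true → val x + val y = val (cd T.st i j) →
    ∃ f, Fl S.vals s t f X ∧ ∀ q < 6, ov s X f (o q) = S.val (uc T.st i j x y q)

theorem vc_pt {g c : ℕ} (hg : g < 120) (hc : vc c = true) : vc (pt g c) = true := by
  obtain ⟨φ, hφ⟩ := ok.sym g hg
  exact (hφ c hc).1

theorem sum_uc {st i j x y : ℕ} (hj : j < 5) (h : val x + val y = val (cd st i j))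
    (h0 : ∑ q ∈ range 5, val (cd st i q) = 0) :
    ∑ q ∈ range 6, val (uc st i j x y q) = 0 := by
  simp only [sum_range_succ, sum_range_zero, zero_add] at h0 ⊢
  have e4 : uc st i j x y 4 = x := rfl
  have e5 : uc st i j x y 5 = y := rfl
  rw [e4, e5, add_assoc, h, ← h0]
  interval_cases j
  · have a0 : uc st i 0 x y 0 = cd st i 1 := rfl
    have a1 : uc st i 0 x y 1 = cd st i 2 := rfl
    have a2 : uc st i 0 x y 2 = cd st i 3 := rfl
    have a3 : uc st i 0 x y 3 = cd st i 4 := rfl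
    rw [a0, a1, a2, a3]; abel
  · have a0 : uc st i 1 x y 0 = cd st i 0 := rfl
    have a1 : uc st i 1 x y 1 = cd st i 2 := rfl
    have a2 : uc st i 1 x y 2 = cd st i 3 := rfl
    have a3 : uc st i 1 x y 3 = cd st i 4 := rfl
    rw [a0, a1, a2, a3]; abel
  · have a0 : uc st i 2 x y 0 = cd st i 0 := rfl
    have a1 : uc st i 2 x y 1 = cd st i 1 := rfl
    have a2 : uc st i 2 x y 2 = cd st i 3 := rfl
    have a3 : uc st i 2 x y 3 = cd st i 4 := rfl
    rw [a0, a1, a2, a3]; abel
  · have a0 : uc st i 3 x y 0 = cd st i 0 := rfl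
    have a1 : uc st i 3 x y 1 = cd st i 1 := rfl
    have a2 : uc st i 3 x y 2 = cd st i 2 := rfl
    have a3 : uc st i 3 x y 3 = cd st i 4 := rfl
    rw [a0, a1, a2, a3]; abel
  · have a0 : uc st i 4 x y 0 = cd st i 0 := rfl
    have a1 : uc st i 4 x y 1 = cd st i 1 := rfl
    have a2 : uc st i 4 x y 2 = cd st i 2 := rfl
    have a3 : uc st i 4 x y 3 = cd st i 3 := rfl
    rw [a0, a1, a2, a3]

theorem c6_spec {j : ℕ} (hj : j < 5) : portsB 3 5 (Nat.shiftLeft 1 j) 6 (c6 j) = true ∧
    (∀ q < 4, dig (c6 j) q = rj j q ∧ rj j q < 5) ∧ dig (c6 j) 4 = 8 ∧ dig (c6 j) 5 = 9 := by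
  have h := allB_iff.1 c6_ok j hj
  have h' := allB_iff.1 c6_ok' j hj
  rw [Bool.and_eq_true, allB_iff] at h
  rw [Bool.and_eq_true, beq_iff, beq_iff] at h'
  refine ⟨h.1, fun q hq => ?_, h'.1, h'.2⟩
  have h2 := h.2 q hq
  rw [Bool.and_eq_true, beq_iff, blt_iff] at h2
  exact h2

theorem one_port : (allB 32 fun lm => cond (Nat.beq (pc8 lm) 1)
    (anyB 5 fun j => Nat.beq (Nat.shiftLeft 1 j) lm) true) = true := by decide +kernel

theorem stepA (hall : ∀ i, Gd (ta i)) (e0 : E) (hreg : ∀ v, dg (gr s t hst) univ v = 3)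
    (hodd : ∀ Y : Finset V, Odd Y.card → 3 ≤ (cut (gr s t hst) Y).card)
    {T : BT} {A : ℕ × ℕ} (hG : Gd (T, A)) (I : InvF s t hst S X T o) (hv : v ∉ X)
    (hw : (cut (gr s t hst) (insert v X)).card ≤ 6) :
    (∃ i1 o', InvF s t hst S (insert v X) (tbl i1) o') ∨
      ∃ j d w o', j < 5 ∧ T.k = 5 ∧ auxB T A.1 A.2 = true ∧
        chkV tbl aux T A.1 A.2 j d w = true ∧ InvV s t hst (insert v X) T j d o' := by
  obtain ⟨⟨es, hes⟩, h5, _⟩ := hG
  dsimp only at hes h5
  unfold chkQ at hes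
  simp only [Bool.and_eq_true, allB_iff, List.all_eq_true] at hes
  obtain ⟨hes1, hes2, hes3⟩ := hes
  have O := okF_spec ok hes1
  obtain ⟨lm, m, n, C, hlt, hpat, hex⟩ := ctx_pat e0 hreg hodd I.inv O.hk O.hfs hv hw
  have hsh : lm < Nat.shiftLeft 1 T.k := by
    have e : Nat.shiftLeft 1 T.k = 1 <<< T.k := rfl
    rw [e, Nat.one_shiftLeft]; exact hlt
  have h3 := hes3 lm hsh
  have hex' : exclB 3 T lm = false := hex
  rw [hpat, cond_true, Bool.or_eq_true, hex', Bool.or_eq_true, List.any_eq_true] at h3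
  rcases h3 with h3 | ⟨e, he, hel⟩ | h3
  · exact absurd h3 (by simp)
  · left
    have hel' : e.lm = lm := (beq_iff _ _).1 hel
    obtain ⟨⟨es1, hes1'⟩, _⟩ := hall e.ti
    unfold chkQ at hes1'
    rw [Bool.and_eq_true] at hes1'
    exact entry_step C I O hel' (hes2 e he) (okF_spec ok hes1'.1)
  · right
    rw [Bool.and_eq_true] at h3
    obtain ⟨hk5, hp1⟩ := h3
    obtain ⟨D, W, h6⟩ := h5 hk5
    rw [beq_iff] at hk5
    unfold chk5 at h6
    rw [Bool.and_eq_true, allB_iff] at h6
    have hl32 : lm < 32 := by rw [hk5] at hlt; exact hlt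
    have h7 := allB_iff.1 one_port lm hl32
    rw [hp1, cond_true, anyB_iff] at h7
    obtain ⟨j, hj, h8⟩ := h7
    rw [beq_iff] at h8
    have h9 := h6.2 j hj
    rw [h8, hex', Bool.false_or] at h9
    refine ⟨j, D.getD j [], W.getD j 0, fun i => sr o n (dig (c6 j) i), hj, hk5, h6.1, h9, ?_⟩
    unfold chkV at h9
    rw [Bool.and_eq_true, List.all_eq_true] at h9
    obtain ⟨g1, g2, g3, g4⟩ := c6_spec hj
    rw [h8, ← hk5] at g1
    have P := C.prt (by norm_num) g1
    refine ⟨inv_step C I.inv O.hfs P ?_ (fun Q hQ => ?_), ?_⟩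
    · cases T.par <;> rfl
    · have h10 := h9.1 Q hQ
      rw [Bool.and_eq_true, h8] at h10
      exact h10.2
    · intro i hi x y hx hy hxy
      obtain ⟨f, hf, hfo⟩ := I.sts i hi
      have hvc : ∀ q < 6, vc (uc T.st i j x y q) = true := by
        intro q hq
        unfold uc
        by_cases h11 : q < 4
        · rw [(blt_iff _ _).2 h11, cond_true]
          exact O.hc i hi _ (by rw [hk5]; exact (g2 q h11).2)
        · have h12 : Nat.blt q 4 = false := by
            rw [← Bool.not_eq_true, blt_iff]; exact h11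
          rw [h12, cond_false]
          cases Nat.beq q 4
          · exact hy
          · exact hx
      refine state_step C P (vals_neg ok) hf (fun q => S.val (uc T.st i j x y q))
        (fun q hq => ⟨_, hvc q hq, rfl⟩) ?_ ?_
      · have h13 := O.hz i hi
        rw [hk5] at h13
        exact sum_uc hj hxy h13
      · intro q hq h8'
        by_cases h11 : q < 4
        · have h14 : uc T.st i j x y q = cd T.st i (rj j q) := by
            unfold uc
            rw [(blt_iff _ _).2 h11, cond_true]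
          beta_reduce
          rw [h14, (g2 q h11).1, hfo _ (by rw [hk5]; exact (g2 q h11).2)]
        · have h15 : q = 4 ∨ q = 5 := by omega
          rcases h15 with h15 | h15
          · subst h15; rw [g3] at h8'; omega
          · subst h15; rw [g4] at h8'; omega

theorem pats6 : (allB 64 fun lm => cond (patB 3 6 6 lm)
    ((anyB 15 fun q => Nat.beq (lmp q) lm) || anyB 20 fun x => Nat.beq (lmt x) lm) true) =
    true := by decide +kernel

theorem t2_eq : tbl 2 = ⟨3, true, 1, 0xa4, []⟩ := rfl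

/-- all members of a state of six ports after the symmetry g -/
theorem act6 {T : BT} {i j x y g : ℕ} {f : E → Fin 64 → ZMod 2} (hg : g < 120)
    (hf : Fl S.vals s t f X) (hvc : ∀ q < 6, vc (uc T.st i j x y q) = true)
    (ho : ∀ q < 6, ov s X f (o q) = S.val (uc T.st i j x y q)) :
    ∃ f', Fl S.vals s t f' X ∧
      ∀ q < 6, ov s X f' (o q) = S.val (pt g (uc T.st i j x y q)) :=
  act (S := S) (o := o) (k := 6) ok hg hf hvc ho


theorem F106_testBit {b : ℕ} (hb : b < 106) : F106.testBit b = true := by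
  have h : F106 = 2 ^ 106 - 1 := rfl
  rw [h, Nat.testBit_two_pow_sub_one, decide_eq_true_eq]
  exact hb

theorem mask_sub {R M b : ℕ} (h : Nat.beq (Nat.land (Nat.xor R F106) M) 0 = true)
    (hb : b < 106) (hM : M.testBit b = true) : R.testBit b = true := by
  have h1 : (R ^^^ F106) &&& M = 0 := (beq_iff _ _).1 h
  have h2 : ((R ^^^ F106) &&& M).testBit b = false := by rw [h1]; exact Nat.zero_testBit _
  rw [Nat.testBit_and, Nat.testBit_xor, F106_testBit hb, hM, Bool.and_true] at h2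
  revert h2
  cases R.testBit b <;> simp

theorem auxB_spec {T : BT} {ids m : ℕ} (h : auxB T ids m = true) :
    m = (orN T.n fun i => Nat.shiftLeft 1 (ix ids i)) ∧ ∀ i < T.n, ix ids i < 106 ∧
      ∀ q < 5, cd T.st i q = rc (ix ids i) q := by
  unfold auxB at h
  rw [Bool.and_eq_true, beq_iff, allB_iff] at h
  refine ⟨h.1, fun i hi => ?_⟩
  have h2 := h.2 i hi
  rw [Bool.and_eq_true, blt_iff, allB_iff] at h2
  exact ⟨h2.1, fun q hq => (beq_iff _ _).1 (h2.2 q hq)⟩

theorem uc_eq {T : BT} {ids i j x y : ℕ} (hj : j < 5)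
    (h : ∀ q < 5, cd T.st i q = rc (ix ids i) q) (q : ℕ) :
    uc T.st i j x y q = ur (ix ids i) j x y q := by
  unfold uc ur
  by_cases h1 : q < 4
  · rw [(blt_iff _ _).2 h1, cond_true, cond_true]
    exact h _ ((c6_spec hj).2.1 q h1).2
  · have h12 : Nat.blt q 4 = false := by
      rw [← Bool.not_eq_true, blt_iff]; exact h1
    rw [h12, cond_false, cond_false]

theorem vc_rc {a i : ℕ} (ha : a < 106) (hi : i < 5) : vc (rc a i) = true :=
  allB_iff.1 (allB_iff.1 rc_ok a ha) i hi

theorem vc_ur {a j x y q : ℕ} (hj : j < 5) (ha : a < 106) (hx : vc x = true) (hy : vc y = true) :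
    vc (ur a j x y q) = true := by
  unfold ur
  by_cases h1 : q < 4
  · rw [(blt_iff _ _).2 h1, cond_true]
    exact vc_rc ha ((c6_spec hj).2.1 q h1).2
  · have h12 : Nat.blt q 4 = false := by
      rw [← Bool.not_eq_true, blt_iff]; exact h1
    rw [h12, cond_false]
    cases Nat.beq q 4
    · exact hy
    · exact hx

theorem stepB (hall : ∀ i, Gd (ta i)) (e0 : E) (hreg : ∀ v, dg (gr s t hst) univ v = 3)
    (hodd : ∀ Y : Finset V, Odd Y.card → 3 ≤ (cut (gr s t hst) Y).card)
    {T : BT} {A : ℕ × ℕ} {j w : ℕ} {d : List (ℕ × Bool × ℕ)} (hj : j < 5) (hk5 : T.k = 5)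
    (hpar : T.par = true)
    (ha : auxB T A.1 A.2 = true) (hc : chkV tbl aux T A.1 A.2 j d w = true)
    (I : InvV s t hst X T j d o) (hv : v ∉ X)
    (hw : (cut (gr s t hst) (insert v X)).card ≤ 6) :
    ∃ i1 o', InvF s t hst S (insert v X) (tbl i1) o' := by
  obtain ⟨hm, hst5⟩ := auxB_spec ha
  unfold chkV at hc
  rw [Bool.and_eq_true, List.all_eq_true, Bool.and_eq_true, allB_iff, allB_iff] at hc
  obtain ⟨hd, hp, ht⟩ := hc
  have hfs : ∀ Q ∈ d, Q.1 < 2 ^ 6 := by
    intro Q hQ
    have := hd Q hQ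
    rw [Bool.and_eq_true, blt_iff] at this
    exact this.1
  obtain ⟨lm, m, n, C, hlt, hpat, hex⟩ := ctx_pat e0 hreg hodd I.inv (by norm_num) hfs hv hw
  have h7 := allB_iff.1 pats6 lm hlt
  rw [hpat, cond_true, Bool.or_eq_true, anyB_iff, anyB_iff] at h7
  rcases h7 with ⟨q, hq, h8⟩ | ⟨x, hx, h8⟩
  · rw [beq_iff] at h8
    have h9 := hp q hq
    rw [h8, hex, Bool.false_or] at h9
    unfold chkE at h9
    revert h9
    generalize Nat.land (Nat.shiftRight w (Nat.mul 20 q)) 1048575 = ee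
    generalize Nat.shiftRight ee 12 = p
    generalize Nat.land ee 4095 = ti
    intro h9
    rw [Bool.and_eq_true, Bool.and_eq_true, Bool.and_eq_true, Bool.and_eq_true, blt_iff, beq_iff,
      List.all_eq_true] at h9
    obtain ⟨hp120, hk', hpar', hfa, hmask⟩ := h9
    -- the target type
    obtain ⟨⟨es1, hes1'⟩, h5', _⟩ := hall ti
    unfold chkQ at hes1'
    rw [Bool.and_eq_true] at hes1'
    have O1 : OkFT S (tbl ti) := okF_spec ok hes1'.1
    obtain ⟨D1, W1, h6'⟩ := h5' ((beq_iff _ _).2 hk')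
    unfold chk5 at h6'
    rw [Bool.and_eq_true] at h6'
    have hau : auxB (tbl ti) (aux ti).1 (aux ti).2 = true := h6'.1
    obtain ⟨_, hst1⟩ := auxB_spec hau
    have hcc := allB_iff.1 (allB_iff.1 cc_ok q hq) p hp120
    unfold ccB at hcc
    rw [Bool.and_eq_true, allB_iff, h8] at hcc
    obtain ⟨g1, g2⟩ := hcc
    have P := C.prt (by norm_num) g1
    refine ⟨ti, fun i => sr o n (dig (cc q p) i), ?_⟩
    have hpx : xorB (tbl ti).par (!T.par) = true := by
      revert hpar'
      cases (tbl ti).par <;> cases T.par <;> simp [xorB]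
    have hinv := inv_step (fs' := (tbl ti).fs) C I.inv hfs P hpx (fun Q hQ => by
      have := hfa Q hQ
      rw [h8] at this
      exact this)
    refine ⟨by rw [hk']; exact hinv, ?_⟩
    intro j' hj'
    obtain ⟨hid, hst1j⟩ := hst1 j' hj'
    have hac := allB_iff.1 (allB_iff.1 act_ok p hp120) _ hid
    unfold actB at hac
    rw [Bool.and_eq_true, Bool.and_eq_true, blt_iff, blt_iff, allB_iff] at hac
    obtain ⟨hb106, hg2, hact⟩ := hac
    have hM : (orN (tbl ti).n fun i => Nat.shiftLeft 1 (ac p (ix (aux ti).1 i))).testBit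
        (ac p (ix (aux ti).1 j')) = true := by
      rw [orN_testBit]
      exact ⟨j', hj', (shl_testBit _ _).2 rfl⟩
    have hR := mask_sub hmask hb106 hM
    rw [orN_testBit] at hR
    obtain ⟨i, hi, hbit⟩ := hR
    obtain ⟨hia, hsti⟩ := hst5 i hi
    obtain ⟨x, y, g, hx, hy, hg, hxy, hrel⟩ := rel_spec hj hia hq hbit
    have hxy' : val x + val y = val (cd T.st i j) := by rw [hxy, hsti j hj]
    obtain ⟨f, hf, hfo⟩ := I.sts i hi x y hx hy hxy'
    have hvc : ∀ q < 6, vc (uc T.st i j x y q) = true := by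
      intro q _
      rw [uc_eq hj hsti]
      exact vc_ur hj hia hx hy
    obtain ⟨f1, hf1, hfo1⟩ := act6 (o := o) hg hf hvc hfo
    obtain ⟨f2, hf2, hfo2⟩ := act (S := S) (o := o) (k := 6)
      (F := fun q => pt g (uc T.st i j x y q)) ok hg2 hf1 (fun q hq => vc_pt hg (hvc q hq)) hfo1
    refine state_step C P (vals_neg ok) hf2 (fun i => S.val (cd (tbl ti).st j' i))
      (fun i hi => ⟨_, O1.hc j' hj' i (by rw [hk']; exact hi), rfl⟩) ?_ ?_ |>.imp ?_
    · have := O1.hz j' hj'
      rw [hk'] at this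
      exact this
    · intro r hr h8'
      have h10 := g2 r hr
      rw [(blt_iff _ _).2 h8', cond_true, Bool.and_eq_true, blt_iff, beq_iff] at h10
      obtain ⟨h11, h12⟩ := h10
      have h13 : rp q (pe p r) < 6 :=
        (blt_iff _ _).1 (allB_iff.1 (allB_iff.1 rp_ok q hq) _ h11)
      have h14 := hact r hr
      rw [Bool.and_eq_true, beq_iff] at h14
      beta_reduce
      rw [h12, hfo2 _ h13]
      beta_reduce
      rw [uc_eq hj hsti, hst1j r hr, ← h14.2, ← hrel _ h11]
      rfl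
    · intro f3 h15
      refine ⟨h15.1, fun i hi => ?_⟩
      rw [hk'] at hi
      exact h15.2 i hi
  · rw [beq_iff] at h8
    have h9 := ht x hx
    rw [h8, hex, Bool.false_or, Bool.not_eq_true'] at h9
    have h10 : A.2 &&& rt j x ≠ 0 := by
      intro h11
      have h12 : Nat.beq (Nat.land A.2 (rt j x)) 0 = true := (beq_iff _ _).2 h11
      rw [h12] at h9
      exact absurd h9 (by simp)
    obtain ⟨a, h11⟩ := Nat.exists_testBit_of_ne_zero h10
    rw [Nat.testBit_and, Bool.and_eq_true] at h11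
    obtain ⟨h12, h13⟩ := h11
    rw [hm, orN_testBit] at h12
    obtain ⟨i, hi, h14⟩ := h12
    rw [shl_testBit] at h14
    obtain ⟨hia, hsti⟩ := hst5 i hi
    have h15 := allB_iff.1 (allB_iff.1 (allB_iff.1 tri_ok j hj) a (by rw [h14]; exact hia)) x hx
    unfold triB at h15
    have h16 : tb (rt j x) a = true := by rw [tb_eq]; exact h13
    rw [h16, cond_true] at h15
    revert h15
    generalize Nat.land (rv j a x) 15 = x1
    generalize Nat.land (Nat.shiftRight (rv j a x) 4) 15 = y1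
    generalize Nat.land (Nat.shiftRight (rv j a x) 8) 127 = g
    intro h15
    rw [Bool.and_eq_true, Bool.and_eq_true, Bool.and_eq_true, Bool.and_eq_true, blt_iff,
      allB_iff] at h15
    obtain ⟨hx1, hy1, hg, hxy, hrel⟩ := h15
    have hxy' : val x1 + val y1 = val (cd T.st i j) := by
      rw [hsti j hj, ← h14]; exact val_add hxy
    obtain ⟨f, hf, hfo⟩ := I.sts i hi x1 y1 hx1 hy1 hxy'
    have hvc : ∀ q < 6, vc (uc T.st i j x1 y1 q) = true := by
      intro q _
      rw [uc_eq hj hsti]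
      exact vc_ur hj hia hx1 hy1
    obtain ⟨f1, hf1, hfo1⟩ := act6 (o := o) hg hf hvc hfo
    have hcc := allB_iff.1 c3_ok x hx
    rw [Bool.and_eq_true, allB_iff, h8] at hcc
    obtain ⟨g1, g2⟩ := hcc
    have P := C.prt (by norm_num) g1
    obtain ⟨⟨es1, hes1'⟩, _⟩ := hall 2
    unfold chkQ at hes1'
    rw [Bool.and_eq_true] at hes1'
    have O1 : OkFT S (tbl 2) := okF_spec ok hes1'.1
    refine ⟨2, fun i => sr o n (dig (c3 x) i), ?_⟩
    have hinv := inv_step (fs' := []) (par' := true) C I.inv hfs P (by rw [hpar]; rfl)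
      (fun Q hQ => absurd hQ List.not_mem_nil)
    refine ⟨hinv, ?_⟩
    intro j' hj'
    refine state_step C P (vals_neg ok) hf1 (fun i => S.val (cd (tbl 2).st j' i))
      (fun i hi => ⟨_, O1.hc j' hj' i hi, rfl⟩) (O1.hz j' hj') ?_
    intro r hr h8'
    have hj0 : j' = 0 := by
      have h17 : (tbl 2).n = 1 := rfl
      omega
    have h17 := g2 r hr
    rw [Bool.and_eq_true, beq_iff, blt_iff] at h17
    beta_reduce
    rw [h17.1, hfo1 _ h17.2, uc_eq hj hsti, ← h14]
    have h18 := (beq_iff _ _).1 (hrel r hr)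
    rw [h18, hj0]
    interval_cases r
    · rfl
    · rfl
    · rfl

end Pool.Agent.Y425.PC
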